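import Pool.Agent.Helper55.TM.CV5
import Pool.Agent.Helper91.TM.M
import Pool.Agent.Helper21.TM.CVM

/-!
Taylor model machine (MP_c75db0, star frame): THE CONVERSION LAW of the Taylor machine.
-/

set_option autoImplicit false
noncomputable section
namespace Pool.Agent.Helper55.CV

open Pool.Agent.Helper91.TM (TP lfT)
open Pool.Agent.Helper91.TMK.TST (Cvt CvtL okM cvM TOK_cv)
open Pool.Agent.Helper90.KMT (nlf lf0 PT)
open Pool.Agent.Helper86.CX (Cx)
open Pool.Agent.Helper86.CT (N3 Mo)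

/-- the conversion of the Taylor machine -/
def cvV : Cvt TP (N3 (N3 (N3 Cx))) := ⟨cvT, cvR, TP.g⟩

/-- THE LAW -/
theorem cvV_ok : CvtL 3 lfT (nlf (nlf (nlf lf0))) cvV where
  gd := fun _ h => h
  ok := fun h hg hP => cv_ok (h.ok hg) hP

/-- a converted model -/
theorem cv_tok {M : Mo TP} {t : ℕ → ℝ} {f : ℂ} (hP : PT 3 t)
    (h : Pool.Agent.Helper91.TMK.TOK 3 lfT t f M) (hg : M.v.g = true) :
    Pool.Agent.Helper90.KMT.TOK 3 (nlf (nlf (nlf lf0))) t f
      (Pool.Agent.Helper86.CT.mk Pool.Agent.Helper86.CT.A3 (cvT M.v) (Nat.add M.r (cvR M.v))) :=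
  TOK_cv (V := cvV) Pool.Agent.Helper90.KMT.A3_ok cvV_ok hP h hg

end Pool.Agent.Helper55.CV
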