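import Pool.Agent.Helper55.TM.CV4

/-!
Taylor model machine (MP_c75db0, star frame): conversion to tensor quadratic functions, the theorem.
-/

set_option autoImplicit false
set_option exponentiation.threshold 100000
noncomputable section
namespace Pool.Agent.Helper55.CV

open Finset
open Pool.Agent.Helper86.CX (nb2)
open Pool.Agent.Helper91.TM
open Pool.Agent.Helper90.KMO (zv cz nb2_le)
open Pool.Agent.Helper90.KMT (nlf lf0 PT)
open Pool.Agent.Helper90.C75 (bt Vt wtT avg avg_T_succ Wts)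

/-! ### averages -/

theorem avg_re55 (w : Fin 3 → ℝ) (F : Fin 3 → ℂ) : (avg w F).re = ∑ v, w v * (F v).re := by
  unfold avg
  rw [Complex.re_sum]
  exact Finset.sum_congr rfl fun v _ => Complex.re_ofReal_mul _ _
theorem avg_im55 (w : Fin 3 → ℝ) (F : Fin 3 → ℂ) : (avg w F).im = ∑ v, w v * (F v).im := by
  unfold avg
  rw [Complex.im_sum]
  exact Finset.sum_congr rfl fun v _ => Complex.im_ofReal_mul _ _

theorem avg0 (t : ℕ → ℝ) (F : Vt 0 → ℂ) : avg (wtT 0 t) F = F () := by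
  unfold avg
  show ∑ v : Unit, ((1 : ℝ) : ℂ) * F v = F ()
  simp

theorem avg3_re (t : ℕ → ℝ) (F : Vt 3 → ℂ) : (avg (wtT 3 t) F).re =
    R3 t (fun v2 v1 v0 => (F ((((), v0), v1), v2)).re) := by
  rw [avg_T_succ, avg_re55]
  unfold R3
  refine Finset.sum_congr rfl fun v2 _ => ?_
  congr 1
  rw [avg_T_succ, avg_re55]
  refine Finset.sum_congr rfl fun v1 _ => ?_
  congr 1
  rw [avg_T_succ, avg_re55]
  refine Finset.sum_congr rfl fun v0 _ => ?_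
  congr 1
  rw [avg0]
theorem avg3_im (t : ℕ → ℝ) (F : Vt 3 → ℂ) : (avg (wtT 3 t) F).im =
    R3 t (fun v2 v1 v0 => (F ((((), v0), v1), v2)).im) := by
  rw [avg_T_succ, avg_im55]
  unfold R3
  refine Finset.sum_congr rfl fun v2 _ => ?_
  congr 1
  rw [avg_T_succ, avg_im55]
  refine Finset.sum_congr rfl fun v1 _ => ?_
  congr 1
  rw [avg_T_succ, avg_im55]
  refine Finset.sum_congr rfl fun v0 _ => ?_
  congr 1
  rw [avg0]

theorem R3_sub (t : ℕ → ℝ) (f g : Fin 3 → Fin 3 → Fin 3 → ℝ) :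
    R3 t f - R3 t g = R3 t (fun v2 v1 v0 => f v2 v1 v0 - g v2 v1 v0) := by
  unfold R3
  simp only [mul_sub, Finset.sum_sub_distrib]

theorem bt_le {t : ℝ} (h0 : 0 ≤ t) (h1 : t ≤ 1) {f : Fin 3 → ℝ} {B : ℝ} (hf : ∀ v, |f v| ≤ B) :
    |∑ v, bt t v * f v| ≤ B := by
  have hw := Wts.bt h0 h1
  refine (Finset.abs_sum_le_sum_abs _ _).trans ?_
  have h2 : ∑ v, |bt t v * f v| ≤ ∑ v, bt t v * B := by
    refine Finset.sum_le_sum fun v _ => ?_
    rw [abs_mul, abs_of_nonneg (hw.nonneg v)]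
    exact mul_le_mul_of_nonneg_left (hf v) (hw.nonneg v)
  rw [← Finset.sum_mul, hw.sum, one_mul] at h2
  exact h2

theorem R3_le {t : ℕ → ℝ} (hP : PT 3 t) {f : Fin 3 → Fin 3 → Fin 3 → ℝ} {B : ℝ}
    (hf : ∀ v2 v1 v0, |f v2 v1 v0| ≤ B) : |R3 t f| ≤ B := by
  unfold R3
  refine bt_le (hP.h0 2 (by norm_num)) (hP.h1 2 (by norm_num)) fun v2 => ?_
  refine bt_le (hP.h0 1 (by norm_num)) (hP.h1 1 (by norm_num)) fun v1 => ?_
  exact bt_le (hP.h0 0 (by norm_num)) (hP.h1 0 (by norm_num)) fun v0 => hf v2 v1 v0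

/-- real part or imaginary part: the control values -/
theorem ctl_err {N : ℕ} {c : ℕ → ℤ} (h : Rp N c) (hc : ∀ i, |c i| < 2 ^ 76) {t : ℕ → ℝ}
    (hP : PT 3 t) {f : Fin 3 → Fin 3 → Fin 3 → ℤ}
    (hf : ∀ v2 v1 v0, f v2 v1 v0 = zv (lfZ (GN N v0) (160 * ((v2 : ℕ) * 7 + (v1 : ℕ)) + 20)
      (OF v2 v1 v0))) :
    |(∑ q ∈ range 301, (c q : ℝ) * QQ (tS t) q) / 256 - R3 t (fun v2 v1 v0 => (f v2 v1 v0 : ℝ))| ≤
      1 / 2 := by
  have e1 := R3_TT h.sp t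
  have e2 : R3 t (fun v2 v1 v0 => (TT c v2 v1 v0 : ℝ) / 2 ^ 20) =
      R3 t (fun v2 v1 v0 => (TT c v2 v1 v0 : ℝ)) / 2 ^ 20 := by
    unfold R3
    simp only [Finset.sum_div, mul_div_assoc]
  have e3 : (∑ q ∈ range 301, (c q : ℝ) * QQ (tS t) q) / 256 =
      R3 t (fun v2 v1 v0 => (TT c v2 v1 v0 : ℝ) / 2 ^ 20) := by
    rw [e2, e1]
    ring
  rw [e3, R3_sub]
  refine R3_le hP fun v2 v1 v0 => ?_
  have h1 := leaf_ok h hc v2 v1 v0
  rw [← hf] at h1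
  have h2 : |((f v2 v1 v0 * 2 ^ 20 - TT c v2 v1 v0 : ℤ) : ℝ)| ≤ 2 ^ 19 := by exact_mod_cast h1
  push_cast at h2
  have h3 := abs_le.1 h2
  rw [abs_le]
  constructor <;> linarith [h3.1, h3.2]

theorem tS_ok55 {t : ℕ → ℝ} (hP : PT 3 t) : SB (tS t) := by
  intro j hj
  unfold tS
  rw [abs_le]
  constructor <;> linarith [hP.h0 j hj, hP.h1 j hj]

/-- real part or imaginary part: the whole error -/
theorem part_err {N : ℕ} {c : ℕ → ℤ} (h : Rp N c) (hc : ∀ i, |c i| < 2 ^ 76) {t : ℕ → ℝ}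
    (hP : PT 3 t) {f : Fin 3 → Fin 3 → Fin 3 → ℤ}
    (hf : ∀ v2 v1 v0, f v2 v1 v0 = zv (lfZ (GN N v0) (160 * ((v2 : ℕ) * 7 + (v1 : ℕ)) + 20)
      (OF v2 v1 v0))) :
    ∃ a b : ℝ, |a| ≤ (eR N : ℕ) ∧ |b| ≤ 1 / 2 ∧
      (∑ q ∈ range 301, (c q : ℝ) * mu (tS t) q) / 256 - R3 t (fun v2 v1 v0 => (f v2 v1 v0 : ℝ)) =
        a / 1024 + b := by
  refine ⟨4 * ∑ q ∈ range 301, (c q : ℝ) * (mu (tS t) q - QQ (tS t) q), _, ?_,
    ctl_err h hc hP hf, ?_⟩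
  · have h1 := real_err h hc (tS_ok55 hP)
    rw [abs_mul, abs_of_pos (by norm_num : (0 : ℝ) < 4)]
    linarith
  · have e : ∑ q ∈ range 301, (c q : ℝ) * (mu (tS t) q - QQ (tS t) q) =
        ∑ q ∈ range 301, (c q : ℝ) * mu (tS t) q - ∑ q ∈ range 301, (c q : ℝ) * QQ (tS t) q := by
      rw [← Finset.sum_sub_distrib]
      exact Finset.sum_congr rfl fun q _ => by ring
    rw [e]
    ring

/-- THE CONVERSION -/
theorem cv_ok {x : TP} (h : GT x) {t : ℕ → ℝ} (hP : PT 3 t) :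
    ‖evT x t - avg (wtT 3 t) (nlf (nlf (nlf lf0)) (cvT x))‖ ≤ (cvR x : ℕ) := by
  have hl := abs_lt_of h.re.sp h.im.sp h.sm h.m
  obtain ⟨a, b, ha, hb, e1⟩ := part_err h.re (fun i => (hl i).1) hP
    (f := fun v2 v1 v0 => zv (lfZ (GN x.re v0) (160 * ((v2 : ℕ) * 7 + (v1 : ℕ)) + 20)
      (OF v2 v1 v0))) (fun _ _ _ => rfl)
  obtain ⟨a', b', ha', hb', e2⟩ := part_err h.im (fun i => (hl i).2) hP
    (f := fun v2 v1 v0 => zv (lfZ (GN x.im v0) (160 * ((v2 : ℕ) * 7 + (v1 : ℕ)) + 20)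
      (OF v2 v1 v0))) (fun _ _ _ => rfl)
  have r1 : (evT x t).re = (∑ q ∈ range 301, (dcf x.re q : ℝ) * mu (tS t) q) / 256 := by
    have e : evT x t = ((1 / 256 : ℝ) : ℂ) * Ev (tS t) (zT x) := by
      unfold evT
      push_cast
      ring
    rw [e, Complex.re_ofReal_mul]
    have e3 : (Ev (tS t) (zT x)).re = ∑ i ∈ range 301, (dcf x.re i : ℝ) * mu (tS t) i := by
      unfold Ev
      rw [Complex.re_sum]
      refine Finset.sum_congr rfl fun i _ => ?_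
      rw [Complex.re_mul_ofReal]
      congr 1
      exact zc_re (dcf x.re) (dcf x.im) i
    rw [e3]
    ring
  have r2 : (evT x t).im = (∑ q ∈ range 301, (dcf x.im q : ℝ) * mu (tS t) q) / 256 := by
    have e : evT x t = ((1 / 256 : ℝ) : ℂ) * Ev (tS t) (zT x) := by
      unfold evT
      push_cast
      ring
    rw [e, Complex.im_ofReal_mul]
    have e3 : (Ev (tS t) (zT x)).im = ∑ i ∈ range 301, (dcf x.im i : ℝ) * mu (tS t) i := by
      unfold Ev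
      rw [Complex.im_sum]
      refine Finset.sum_congr rfl fun i _ => ?_
      rw [Complex.im_mul_ofReal]
      congr 1
      exact zc_im (dcf x.re) (dcf x.im) i
    rw [e3]
    ring
  have s1 : (avg (wtT 3 t) (nlf (nlf (nlf lf0)) (cvT x))).re =
      R3 t (fun v2 v1 v0 => ((zv (lfZ (GN x.re v0) (160 * ((v2 : ℕ) * 7 + (v1 : ℕ)) + 20)
        (OF v2 v1 v0)) : ℤ) : ℝ)) := by
    rw [avg3_re]
    congr 1
    funext v2 v1 v0
    rw [tree_ok]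
    rfl
  have s2 : (avg (wtT 3 t) (nlf (nlf (nlf lf0)) (cvT x))).im =
      R3 t (fun v2 v1 v0 => ((zv (lfZ (GN x.im v0) (160 * ((v2 : ℕ) * 7 + (v1 : ℕ)) + 20)
        (OF v2 v1 v0)) : ℤ) : ℝ)) := by
    rw [avg3_im]
    congr 1
    funext v2 v1 v0
    rw [tree_ok]
    rfl
  have hD : evT x t - avg (wtT 3 t) (nlf (nlf (nlf lf0)) (cvT x)) =
      ((1 / 1024 : ℝ) : ℂ) * (⟨a, a'⟩ : ℂ) + (⟨b, b'⟩ : ℂ) := by
    apply Complex.ext
    · rw [Complex.sub_re, Complex.add_re, Complex.re_ofReal_mul, r1, s1, e1]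
      show a / 1024 + b = 1 / 1024 * a + b
      ring
    · rw [Complex.sub_im, Complex.add_im, Complex.im_ofReal_mul, r2, s2, e2]
      show a' / 1024 + b' = 1 / 1024 * a' + b'
      ring
  rw [hD]
  have n1 : ‖(⟨a, a'⟩ : ℂ)‖ ≤ nb2 (eR x.re) (eR x.im) := nb2_le ha ha'
  have n2 : ‖(⟨b, b'⟩ : ℂ)‖ ≤ 1 := by
    have := Complex.norm_le_abs_re_add_abs_im (⟨b, b'⟩ : ℂ)
    refine this.trans ?_
    show |b| + |b'| ≤ 1
    linarith
  have n3 : ((nb2 (eR x.re) (eR x.im) : ℕ) : ℝ) / 1024 + 1 ≤ (cvR x : ℕ) := by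
    have e3 : cvR x = nb2 (eR x.re) (eR x.im) / 2 ^ 10 + 2 := by
      unfold cvR
      rw [show Nat.shiftRight (nb2 (eR x.re) (eR x.im)) (nat_lit 10) =
        nb2 (eR x.re) (eR x.im) / 2 ^ 10 from Nat.shiftRight_eq_div_pow _ _]
    have e4 : nb2 (eR x.re) (eR x.im) ≤ 1024 * (nb2 (eR x.re) (eR x.im) / 2 ^ 10) + 1024 := by
      omega
    have e5 : ((nb2 (eR x.re) (eR x.im) : ℕ) : ℝ) ≤
        1024 * ((nb2 (eR x.re) (eR x.im) / 2 ^ 10 : ℕ) : ℝ) + 1024 := by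
      exact_mod_cast e4
    rw [e3, Nat.cast_add]
    have e6 : ((2 : ℕ) : ℝ) = 2 := by norm_num
    rw [e6]
    linarith
  refine (norm_add_le _ _).trans ?_
  rw [norm_mul, Complex.norm_real, Real.norm_of_nonneg (by norm_num : (0 : ℝ) ≤ 1 / 1024)]
  linarith

end Pool.Agent.Helper55.CV
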