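import Pool.Agent.Helper55.TM.CVK
import Pool.Agent.Helper91.TM.G

/-!
Taylor model machine (MP_c75db0, star frame): conversion to tensor quadratic functions, the digits.
-/

set_option autoImplicit false
set_option exponentiation.threshold 100000
noncomputable section
namespace Pool.Agent.Helper55.CV

open Finset
open Pool.Agent.Helper86.C75 (Z)
open Pool.Agent.Helper91.TM

/-! ### numbers with given digits -/

/-- the number `N` has the digits `f` -/
structure RN (N : ℕ) (f : ℕ → ℤ) : Prop where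
  eq : (N : ℤ) = Sz 301 f
  nn : ∀ i, 0 ≤ f i

theorem Sz_mul55 (n : ℕ) (c : ℕ → ℤ) (k : ℤ) : Sz n (fun i => c i * k) = Sz n c * k := by
  unfold Sz
  rw [Finset.sum_mul]
  exact Finset.sum_congr rfl fun i _ => by ring

theorem Sz_nn55 {n : ℕ} {c : ℕ → ℤ} (h : ∀ i, 0 ≤ c i) : 0 ≤ Sz n c :=
  Finset.sum_nonneg fun i _ => mul_nonneg (h i) (by positivity)

theorem RN.congr {N : ℕ} {f g : ℕ → ℤ} (h : RN N f) (e : ∀ i, f i = g i) : RN N g := by
  have : f = g := funext e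
  rw [← this]
  exact h

theorem RN.add {M N : ℕ} {f g : ℕ → ℤ} (hM : RN M f) (hN : RN N g) :
    RN (Nat.add M N) (fun i => f i + g i) := by
  refine ⟨?_, fun i => add_nonneg (hM.nn i) (hN.nn i)⟩
  rw [Sz_add, ← hM.eq, ← hN.eq]
  show ((M + N : ℕ) : ℤ) = _
  push_cast
  rfl

theorem RN.mul {N : ℕ} {f : ℕ → ℤ} (hN : RN N f) (k : ℕ) :
    RN (Nat.mul N k) (fun i => f i * k) := by
  refine ⟨?_, fun i => mul_nonneg (hN.nn i) (by positivity)⟩
  rw [Sz_mul55, ← hN.eq]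
  show ((N * k : ℕ) : ℤ) = _
  push_cast
  rfl

theorem RN.sub {M N : ℕ} {f g : ℕ → ℤ} (hM : RN M f) (hN : RN N g) (h : ∀ i, g i ≤ f i) :
    RN (Nat.sub M N) (fun i => f i - g i) := by
  refine ⟨?_, fun i => sub_nonneg.2 (h i)⟩
  have h1 : 0 ≤ Sz 301 (fun i => f i - g i) := Sz_nn55 fun i => sub_nonneg.2 (h i)
  have e := Sz_sub 301 f g
  rw [e] at h1 ⊢
  rw [← hM.eq, ← hN.eq] at h1 ⊢
  show ((M - N : ℕ) : ℤ) = _
  rw [Nat.cast_sub (by omega)]

theorem RN.shl {N : ℕ} {f : ℕ → ℤ} (hN : RN N f) {e : ℕ} (h : ∀ i, 301 ≤ i + e → f i = 0) :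
    RN (Nat.shiftLeft N (160 * e)) (fun i => if e ≤ i then f (i - e) else 0) := by
  refine ⟨?_, fun i => ?_⟩
  · have e1 : ((Nat.shiftLeft N (160 * e) : ℕ) : ℤ) = (N : ℤ) * 2 ^ (160 * e) := by
      have e2 : Nat.shiftLeft N (160 * e) = N * 2 ^ (160 * e) := Nat.shiftLeft_eq _ _
      rw [e2]
      push_cast
      rfl
    rw [e1, hN.eq]
    unfold Sz
    rw [Finset.sum_mul]
    rcases le_or_gt e 301 with he | he
    · obtain ⟨m, hm⟩ : ∃ m, 301 = e + m := ⟨301 - e, by omega⟩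
      have s1 : ∑ i ∈ range 301, f i * 2 ^ (160 * i) * 2 ^ (160 * e) =
          ∑ i ∈ range m, f i * 2 ^ (160 * i) * 2 ^ (160 * e) := by
        have hm' : 301 = m + e := by omega
        rw [hm', Finset.sum_range_add]
        have : ∑ x ∈ range e, f (m + x) * 2 ^ (160 * (m + x)) * 2 ^ (160 * e) = (0 : ℤ) := by
          refine Finset.sum_eq_zero fun x _ => ?_
          rw [h (m + x) (by omega)]
          ring
        rw [this, add_zero]
      have s2 : ∑ i ∈ range 301, (if e ≤ i then f (i - e) else 0) * 2 ^ (160 * i) =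
          ∑ i ∈ range m, f i * 2 ^ (160 * i) * 2 ^ (160 * e) := by
        rw [hm, Finset.sum_range_add]
        have : ∑ x ∈ range e, (if e ≤ x then f (x - e) else 0) * 2 ^ (160 * x) = (0 : ℤ) := by
          refine Finset.sum_eq_zero fun x hx => ?_
          rw [mem_range] at hx
          rw [if_neg (by omega)]
          ring
        rw [this, zero_add]
        refine Finset.sum_congr rfl fun x _ => ?_
        rw [if_pos (by omega), Nat.add_sub_cancel_left, mul_add, pow_add]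
        ring
      rw [s1, s2]
    · have s1 : ∑ i ∈ range 301, f i * 2 ^ (160 * i) * 2 ^ (160 * e) = (0 : ℤ) := by
        refine Finset.sum_eq_zero fun x _ => ?_
        rw [h x (by omega)]
        ring
      rw [s1]
      symm
      refine Finset.sum_eq_zero fun x hx => ?_
      rw [mem_range] at hx
      show (if e ≤ x then f (x - e) else 0) * 2 ^ (160 * x) = (0 : ℤ)
      rw [if_neg (by omega)]
      ring
  · show 0 ≤ (if e ≤ i then f (i - e) else 0)
    split_ifs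
    · exact hN.nn _
    · exact le_rfl

/-- natural digits -/
theorem RN.nat {N : ℕ} {f : ℕ → ℤ} (hN : RN N f) : N = Sm 301 (fun i => (f i).toNat) := by
  have h : (N : ℤ) = ((Sm 301 (fun i => (f i).toNat) : ℕ) : ℤ) := by
    rw [Sz_cast, hN.eq]
    exact Sz_congr fun i _ => (Int.toNat_of_nonneg (hN.nn i)).symm
  exact_mod_cast h

theorem RN.dig {N : ℕ} {f : ℕ → ℤ} (hN : RN N f) (hf : ∀ i, f i < 2 ^ 160)
    (hz : ∀ i, 301 ≤ i → f i = 0) (i : ℕ) : ((N / 2 ^ (160 * i) % 2 ^ 160 : ℕ) : ℤ) = f i := by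
  have hd : ∀ i < 301, (f i).toNat < 2 ^ 160 := by
    intro i _
    have h1 := hf i
    have h2 := hN.nn i
    omega
  have e := hN.nat
  rcases lt_or_ge i 301 with hi | hi
  · have h1 := dig_of (T := 0) (n := 301) (N := N) (d := fun i => (f i).toNat)
      (by rw [mul_zero, add_zero]; exact e) hd hi
    rw [h1]
    exact Int.toNat_of_nonneg (hN.nn i)
  · rw [hz i hi]
    have h1 := Sm_lt hd
    rw [← e] at h1
    have h2 : N < 2 ^ (160 * i) := h1.trans_le (Nat.pow_le_pow_right (by norm_num) (by omega))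
    rw [Nat.div_eq_of_lt h2]
    rfl

/-! ### masks -/

/-- all digits -/
theorem digits55 (n Y : ℕ) : Y = Sm n (fun p => Y / 2 ^ (160 * p) % 2 ^ 160) +
    2 ^ (160 * n) * (Y / 2 ^ (160 * n)) := by
  induction n with
  | zero =>
    rw [Sm, mul_zero, pow_zero, Nat.div_one, one_mul, zero_add]
  | succ n ih =>
    rw [Sm]
    have e1 : 160 * (n + 1) = 160 * n + 160 := by ring
    have e2 : Y / 2 ^ (160 * (n + 1)) = Y / 2 ^ (160 * n) / 2 ^ 160 := by
      rw [Nat.div_div_eq_div_mul, ← pow_add, e1]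
    have e3 := Nat.mod_add_div (Y / 2 ^ (160 * n)) (2 ^ 160)
    rw [e2, e1, pow_add]
    calc Y = Sm n (fun p => Y / 2 ^ (160 * p) % 2 ^ 160) +
        2 ^ (160 * n) * (Y / 2 ^ (160 * n) % 2 ^ 160 + 2 ^ 160 * (Y / 2 ^ (160 * n) / 2 ^ 160)) := by
          rw [e3]
          exact ih
      _ = _ := by ring

/-- the constant for a set of digits -/
def SmG (bs : Nat → Bool) (k n : Nat) : Nat :=
  Nat.rec (motive := fun _ => Nat) (nat_lit 0)
    (fun i s => Nat.add s (Nat.shiftLeft (fo k (bs i)) (Nat.mul (nat_lit 160) i))) n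
theorem SmG_eq (bs : Nat → Bool) (k n : Nat) : SmG bs k n = Sm n (fun i => fo k (bs i)) := by
  induction n with
  | zero => rfl
  | succ n ih =>
    have e : SmG bs k (n + 1) = SmG bs k n + Nat.shiftLeft (fo k (bs n)) (160 * n) := rfl
    rw [e, ih, Sm]
    congr 1
    exact Nat.shiftLeft_eq _ _
theorem cst55 {c k : Nat} {bs : Nat → Bool} (h : Nat.beq c (SmG bs k (nat_lit 301)) = true) :
    c = Sm 301 (fun i => fo k (bs i)) :=
  (Nat.eq_of_beq_eq_true h).trans (SmG_eq _ _ _)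

theorem RN_cst {c k : ℕ} {bs : ℕ → Bool} (h : c = Sm 301 (fun i => fo k (bs i))) :
    RN c (fun i => bif bs i then (k : ℤ) else 0) := by
  refine ⟨?_, fun i => ?_⟩
  · rw [h, Sz_cast]
    refine Sz_congr fun i _ => ?_
    show ((fo k (bs i) : ℕ) : ℤ) = bif bs i then (k : ℤ) else 0
    cases bs i <;> rfl
  · cases bs i
    · exact le_rfl
    · exact Int.natCast_nonneg k

/-- a mask -/
theorem mask_gen {MB : ℕ} {bs : ℕ → Bool}
    (hM : MB = Sm 301 (fun i => fo (2 ^ 160 - 1) (bs i))) (X r : ℕ) :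
    Nat.land (Nat.shiftRight X (160 * r)) MB =
      Sm 301 (fun p => bif bs p then X / 2 ^ (160 * (p + r)) % 2 ^ 160 else 0) := by
  have e1 : Nat.shiftRight X (160 * r) = X / 2 ^ (160 * r) := Nat.shiftRight_eq_div_pow _ _
  have e2 : Nat.land (X / 2 ^ (160 * r)) MB = (X / 2 ^ (160 * r)) &&& MB := rfl
  have e3 := digits55 301 (X / 2 ^ (160 * r))
  rw [e1, e2, hM]
  conv_lhs => rw [e3]
  refine (Sm_land ?_ ?_ _).trans (Sm_congr fun p _ => ?_)
  · intro i _
    exact Nat.mod_lt _ (by positivity)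
  · intro i _
    show fo (2 ^ 160 - 1) (bs i) < 2 ^ 160
    cases bs i
    · rw [fo_f]; norm_num
    · rw [fo_t]; norm_num
  · show (X / 2 ^ (160 * r) / 2 ^ (160 * p) % 2 ^ 160) &&& fo (2 ^ 160 - 1) (bs p) = _
    cases bs p
    · rw [fo_f, Nat.and_zero]
      rfl
    · rw [fo_t, land_ones, Nat.mod_mod, cond_true, Nat.div_div_eq_div_mul, ← pow_add]
      congr 3
      ring

theorem RN_mask {MB : ℕ} {bs : ℕ → Bool}
    (hM : MB = Sm 301 (fun i => fo (2 ^ 160 - 1) (bs i))) {X : ℕ} {f : ℕ → ℤ} (r : ℕ)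
    (hX : ∀ p, bs p = true → ((X / 2 ^ (160 * (p + r)) % 2 ^ 160 : ℕ) : ℤ) = f (p + r)) :
    RN (Nat.land (Nat.shiftRight X (160 * r)) MB) (fun p => bif bs p then f (p + r) else 0) := by
  rw [mask_gen hM]
  refine ⟨?_, fun p => ?_⟩
  · rw [Sz_cast]
    refine Sz_congr fun p _ => ?_
    cases hb : bs p
    · rfl
    · exact hX p hb
  · cases hb : bs p
    · exact le_rfl
    · rw [cond_true, ← hX p hb]
      exact Int.natCast_nonneg _

/-! ### one variable -/

/-- even part -/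
def tA (st : ℕ) (f : ℕ → ℤ) (p : ℕ) : ℤ :=
  (f p + f (p + 2 * st)) * 16 + (f (p + 4 * st) * 14 + f (p + 6 * st) * 13)
/-- odd part -/
def tB (st : ℕ) (f : ℕ → ℤ) (p : ℕ) : ℤ :=
  f (p + 1 * st) * 16 + (f (p + 3 * st) * 12 + f (p + 5 * st) * 11)
def tC (st : ℕ) (f : ℕ → ℤ) (p : ℕ) : ℤ :=
  f (p + 2 * st) * 16 + (f (p + 4 * st) * 18 + f (p + 6 * st) * 19)

/-- the three outputs -/
def oF0 (bs : ℕ → Bool) (st : ℕ) (k : ℤ) (f : ℕ → ℤ) (p : ℕ) : ℤ :=
  bif bs p then tA st f p + k - tB st f p else 0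
def oF1 (bs : ℕ → Bool) (st : ℕ) (k : ℤ) (f : ℕ → ℤ) (p : ℕ) : ℤ :=
  bif bs p then f p * 16 + k - tC st f p else 0
def oF2 (bs : ℕ → Bool) (st : ℕ) (k : ℤ) (f : ℕ → ℤ) (p : ℕ) : ℤ :=
  bif bs p then tA st f p + (tB st f p + k) else 0
/-- packed again -/
def pF (bs : ℕ → Bool) (st e : ℕ) (k : ℤ) (f : ℕ → ℤ) (q : ℕ) : ℤ :=
  oF0 bs st k f q + ((if e ≤ q then oF1 bs st k f (q - e) else 0) +
    (if 2 * e ≤ q then oF2 bs st 0 f (q - 2 * e) else 0))

section

variable {bs : ℕ → Bool} {st : ℕ} {f : ℕ → ℤ} {M : ℤ}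

theorem tA_le (h0 : ∀ i, 0 ≤ f i) (h1 : ∀ i, f i ≤ M) (p : ℕ) :
    0 ≤ tA st f p ∧ tA st f p ≤ 59 * M := by
  have := h0 p
  have := h0 (p + 2 * st)
  have := h0 (p + 4 * st)
  have := h0 (p + 6 * st)
  have := h1 p
  have := h1 (p + 2 * st)
  have := h1 (p + 4 * st)
  have := h1 (p + 6 * st)
  unfold tA
  constructor <;> linarith

theorem tB_le (h0 : ∀ i, 0 ≤ f i) (h1 : ∀ i, f i ≤ M) (p : ℕ) :
    0 ≤ tB st f p ∧ tB st f p ≤ 39 * M := by
  have := h0 (p + 1 * st)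
  have := h0 (p + 3 * st)
  have := h0 (p + 5 * st)
  have := h1 (p + 1 * st)
  have := h1 (p + 3 * st)
  have := h1 (p + 5 * st)
  unfold tB
  constructor <;> linarith

theorem tC_le (h0 : ∀ i, 0 ≤ f i) (h1 : ∀ i, f i ≤ M) (p : ℕ) :
    0 ≤ tC st f p ∧ tC st f p ≤ 53 * M := by
  have := h0 (p + 2 * st)
  have := h0 (p + 4 * st)
  have := h0 (p + 6 * st)
  have := h1 (p + 2 * st)
  have := h1 (p + 4 * st)
  have := h1 (p + 6 * st)
  unfold tC
  constructor <;> linarith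

/-- the numbers `n_0, .., n_6` -/
structure Parts (bs : ℕ → Bool) (st : ℕ) (f : ℕ → ℤ) (n0 n1 n2 n3 n4 n5 n6 : ℕ) : Prop where
  h0 : RN n0 (fun p => bif bs p then f p else 0)
  h1 : RN n1 (fun p => bif bs p then f (p + 1 * st) else 0)
  h2 : RN n2 (fun p => bif bs p then f (p + 2 * st) else 0)
  h3 : RN n3 (fun p => bif bs p then f (p + 3 * st) else 0)
  h4 : RN n4 (fun p => bif bs p then f (p + 4 * st) else 0)
  h5 : RN n5 (fun p => bif bs p then f (p + 5 * st) else 0)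
  h6 : RN n6 (fun p => bif bs p then f (p + 6 * st) else 0)

variable {n0 n1 n2 n3 n4 n5 n6 : ℕ}

theorem Parts.S (h : Parts bs st f n0 n1 n2 n3 n4 n5 n6) :
    RN (fS n0 n2 n4 n6) (fun p => bif bs p then tA st f p else 0) := by
  refine RN.congr (((h.h0.add h.h2).mul 16).add ((h.h4.mul 14).add (h.h6.mul 13))) fun p => ?_
  unfold tA
  cases bs p <;> simp

theorem Parts.B (h : Parts bs st f n0 n1 n2 n3 n4 n5 n6) :
    RN (fB n1 n3 n5) (fun p => bif bs p then tB st f p else 0) := by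
  refine RN.congr ((h.h1.mul 16).add ((h.h3.mul 12).add (h.h5.mul 11))) fun p => ?_
  unfold tB
  cases bs p <;> simp

theorem Parts.C (h : Parts bs st f n0 n1 n2 n3 n4 n5 n6) :
    RN (fC n2 n4 n6) (fun p => bif bs p then tC st f p else 0) := by
  refine RN.congr ((h.h2.mul 16).add ((h.h4.mul 18).add (h.h6.mul 19))) fun p => ?_
  unfold tC
  cases bs p <;> simp

variable {K k : ℕ}

theorem Parts.A0 (h : Parts bs st f n0 n1 n2 n3 n4 n5 n6)
    (hK : RN K (fun i => bif bs i then (k : ℤ) else 0)) (h0 : ∀ i, 0 ≤ f i) (h1 : ∀ i, f i ≤ M)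
    (hk : 53 * M ≤ k) : RN (oA K (fS n0 n2 n4 n6) (fB n1 n3 n5)) (oF0 bs st k f) := by
  have hM : 0 ≤ M := (h0 0).trans (h1 0)
  refine RN.congr ((h.S.add hK).sub h.B fun p => ?_) fun p => ?_
  · cases bs p
    · exact le_refl _
    · have a := (tA_le (st := st) h0 h1 p).1
      have b := (tB_le (st := st) h0 h1 p).2
      simp only [cond_true]
      linarith
  · unfold oF0
    cases bs p <;> simp

theorem Parts.A1 (h : Parts bs st f n0 n1 n2 n3 n4 n5 n6)
    (hK : RN K (fun i => bif bs i then (k : ℤ) else 0)) (h0 : ∀ i, 0 ≤ f i) (h1 : ∀ i, f i ≤ M)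
    (hk : 53 * M ≤ k) : RN (oC K n0 (fC n2 n4 n6)) (oF1 bs st k f) := by
  refine RN.congr (((h.h0.mul 16).add hK).sub h.C fun p => ?_) fun p => ?_
  · cases bs p
    · exact le_refl _
    · have b := (tC_le (st := st) h0 h1 p).2
      have a := h0 p
      simp only [cond_true]
      push_cast
      linarith
  · unfold oF1
    cases bs p <;> simp

theorem Parts.A2 (h : Parts bs st f n0 n1 n2 n3 n4 n5 n6) :
    RN (Nat.add (fS n0 n2 n4 n6) (fB n1 n3 n5)) (oF2 bs st 0 f) := by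
  refine RN.congr (h.S.add h.B) fun p => ?_
  unfold oF2
  cases bs p <;> simp

theorem Parts.A2' (h : Parts bs st f n0 n1 n2 n3 n4 n5 n6)
    (hK : RN K (fun i => bif bs i then (k : ℤ) else 0)) :
    RN (Nat.add (fS n0 n2 n4 n6) (Nat.add (fB n1 n3 n5) K)) (oF2 bs st k f) := by
  refine RN.congr (h.S.add (h.B.add hK)) fun p => ?_
  unfold oF2
  cases bs p <;> simp

/-- bounds of the outputs -/
theorem oF_le (h0 : ∀ i, 0 ≤ f i) (h1 : ∀ i, f i ≤ M) (p : ℕ) :
    oF0 bs st k f p ≤ 98 * M + k ∧ oF1 bs st k f p ≤ 98 * M + k ∧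
      oF2 bs st k f p ≤ 98 * M + k ∧ oF2 bs st 0 f p ≤ 98 * M := by
  have hM : 0 ≤ M := (h0 0).trans (h1 0)
  have hk0 : (0 : ℤ) ≤ k := Int.natCast_nonneg k
  obtain ⟨a0, a1⟩ := tA_le (st := st) h0 h1 p
  obtain ⟨b0, b1⟩ := tB_le (st := st) h0 h1 p
  obtain ⟨c0, c1⟩ := tC_le (st := st) h0 h1 p
  have g0 := h0 p
  have g1 := h1 p
  unfold oF0 oF1 oF2
  cases bs p
  · simp only [cond_false]
    refine ⟨?_, ?_, ?_, ?_⟩ <;> linarith
  · simp only [cond_true]
    refine ⟨?_, ?_, ?_, ?_⟩ <;> linarith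

theorem oF_z {p : ℕ} (hb : bs p = false) (κ : ℤ) :
    oF0 bs st κ f p = 0 ∧ oF1 bs st κ f p = 0 ∧ oF2 bs st κ f p = 0 := by
  unfold oF0 oF1 oF2
  rw [hb]
  exact ⟨rfl, rfl, rfl⟩

/-- ONE LEVEL -/
theorem Parts.lv (h : Parts bs st f n0 n1 n2 n3 n4 n5 n6)
    (hK : RN K (fun i => bif bs i then (k : ℤ) else 0)) (h0 : ∀ i, 0 ≤ f i) (h1 : ∀ i, f i ≤ M)
    (hk : 53 * M ≤ k) {e : ℕ} (hb : ∀ p, 301 ≤ p + 2 * e → bs p = false) :
    RN (lv2 (160 * e) (160 * (2 * e)) K n0 n1 n2 n3 n4 n5 n6) (pF bs st e k f) ∧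
      (∀ q, pF bs st e k f q ≤ 3 * (98 * M + k)) ∧ ∀ q, 301 ≤ q → pF bs st e k f q = 0 := by
  have hM : 0 ≤ M := (h0 0).trans (h1 0)
  have hk0 : (0 : ℤ) ≤ k := Int.natCast_nonneg k
  refine ⟨?_, fun q => ?_, fun q hq => ?_⟩
  · refine RN.congr ((h.A0 hK h0 h1 hk).add (((h.A1 hK h0 h1 hk).shl (e := e) ?_).add
      (h.A2.shl (e := 2 * e) ?_))) fun q => ?_
    · intro i hi
      exact (oF_z (hb i (by omega)) _).2.1
    · intro i hi
      exact (oF_z (hb i hi) _).2.2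
    · rfl
  · unfold pF
    have a1 := (oF_le (bs := bs) (st := st) (k := k) h0 h1 q).1
    have a2 := (oF_le (bs := bs) (st := st) (k := k) h0 h1 (q - e)).2.1
    have a3 := (oF_le (bs := bs) (st := st) (k := k) h0 h1 (q - 2 * e)).2.2.2
    split_ifs <;> linarith
  · unfold pF
    rw [(oF_z (hb q (by omega)) _).1]
    have a2 : (if e ≤ q then oF1 bs st k f (q - e) else 0) = 0 := by
      split_ifs
      · exact (oF_z (hb _ (by omega)) _).2.1
      · rfl
    have a3 : (if 2 * e ≤ q then oF2 bs st 0 f (q - 2 * e) else 0) = 0 := by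
      split_ifs
      · exact (oF_z (hb _ (by omega)) _).2.2
      · rfl
    rw [a2, a3]
    rfl

end

end Pool.Agent.Helper55.CV
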