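import Pool.Agent.Helper55.TM.CV1

/-!
Taylor model machine (MP_c75db0, star frame): conversion to tensor quadratic functions, the digits
of the three levels and the leaves.
-/

set_option autoImplicit false
set_option exponentiation.threshold 100000
noncomputable section
namespace Pool.Agent.Helper55.CV

open Finset
open Pool.Agent.Helper86.C75 (Z)
open Pool.Agent.Helper91.TM
open Pool.Agent.Helper90.KMO (zv zv_br)

/-! ### the sets of digits -/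

/-- `43 d + j`, `j ≤ d ≤ 6` -/
def b2 (p : Nat) : Bool := and (Nat.blt p (nat_lit 301)) (Nat.ble (Nat.mod p (nat_lit 43)) (Nat.div p (nat_lit 43)))
/-- `43 i + 7 k`, `i ≤ 6`, `k ≤ 2` -/
def b1 (p : Nat) : Bool := and (Nat.blt p (nat_lit 301)) (and (Nat.blt (Nat.mod p (nat_lit 43)) (nat_lit 21))
  (Nat.beq (Nat.mod (Nat.mod p (nat_lit 43)) (nat_lit 7)) (nat_lit 0)))
/-- `j + 7 k`, `j, k ≤ 2` -/
def b0 (p : Nat) : Bool := and (Nat.blt p (nat_lit 21)) (Nat.blt (Nat.mod p (nat_lit 7)) (nat_lit 3))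

theorem b2_iff (p : ℕ) : b2 p = true ↔ p < 301 ∧ p % 43 ≤ p / 43 := by
  show (Nat.blt p 301 && Nat.ble (p % 43) (p / 43)) = true ↔ _
  simp
theorem b1_iff (p : ℕ) : b1 p = true ↔ p < 301 ∧ p % 43 < 21 ∧ p % 43 % 7 = 0 := by
  show (Nat.blt p 301 && (Nat.blt (p % 43) 21 && Nat.beq (p % 43 % 7) 0)) = true ↔ _
  simp
theorem b0_iff (p : ℕ) : b0 p = true ↔ p < 21 ∧ p % 7 < 3 := by
  show (Nat.blt p 21 && Nat.blt (p % 7) 3) = true ↔ _
  simp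

theorem b2_f {p : ℕ} (h : ¬ (p < 301 ∧ p % 43 ≤ p / 43)) : b2 p = false := by
  cases e : b2 p
  · rfl
  · exact absurd ((b2_iff p).1 e) h
theorem b1_f {p : ℕ} (h : ¬ (p < 301 ∧ p % 43 < 21 ∧ p % 43 % 7 = 0)) : b1 p = false := by
  cases e : b1 p
  · rfl
  · exact absurd ((b1_iff p).1 e) h

theorem m160 : (nat_lit 1461501637330902918203684832716283019655932542975 : ℕ) = 2 ^ 160 - 1 := by
  norm_num

theorem cB2_eq : cB2 = Sm 301 (fun i => fo (2 ^ 160 - 1) (b2 i)) := by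
  rw [← m160]
  exact cst55 (by decide +kernel)
theorem cB1_eq : cB1 = Sm 301 (fun i => fo (2 ^ 160 - 1) (b1 i)) := by
  rw [← m160]
  exact cst55 (by decide +kernel)
theorem cB0_eq : cB0 = Sm 301 (fun i => fo (2 ^ 160 - 1) (b0 i)) := by
  rw [← m160]
  exact cst55 (by decide +kernel)

/-- the offsets -/
def k2 : ℕ := nat_lit 9671406556917033397649408
def k1 : ℕ := nat_lit 4951760157141521099596496896
def k0 : ℕ := nat_lit 2535301200456458802993406935040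
def kb : ℕ := nat_lit 524288

theorem cL2_rn : RN cL2 (fun i => bif b2 i then (k2 : ℤ) else 0) :=
  RN_cst (cst55 (by decide +kernel))
theorem cL1_rn : RN cL1 (fun i => bif b1 i then (k1 : ℤ) else 0) :=
  RN_cst (cst55 (by decide +kernel))
theorem cL0_rn : RN cL0 (fun i => bif b0 i then (k0 : ℤ) else 0) :=
  RN_cst (cst55 (by decide +kernel))
theorem cLb_rn : RN cLb (fun i => bif b0 i then (kb : ℤ) else 0) :=
  RN_cst (cst55 (by decide +kernel))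

/-! ### the three levels -/

/-- the digits of `N + cOR` in use -/
def fN (c : ℕ → ℤ) (q : ℕ) : ℤ := bif vb q then c q + 2 ^ 76 else 0

def F2 (f : ℕ → ℤ) : ℕ → ℤ := pF b2 50 7 k2 f
def F1 (f : ℕ → ℤ) : ℕ → ℤ := pF b1 44 1 k1 (F2 f)
def F0 (f : ℕ → ℤ) : Fin 3 → ℕ → ℤ :=
  ![oF0 b0 43 k0 (F1 f), oF1 b0 43 k0 (F1 f), oF2 b0 43 kb (F1 f)]

/-- the packed control values in the variable `s_0` -/
def GA (N : ℕ) : ℕ :=
  oA cL0 (fS (Nat.land (cvN N) cB0) (nX cB0 (nat_lit 13760) (cvN N))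
      (nX cB0 (nat_lit 27520) (cvN N)) (nX cB0 (nat_lit 41280) (cvN N)))
      (fB (nX cB0 (nat_lit 6880) (cvN N)) (nX cB0 (nat_lit 20640) (cvN N))
      (nX cB0 (nat_lit 34400) (cvN N)))
def GC (N : ℕ) : ℕ :=
  oC cL0 (Nat.land (cvN N) cB0) (fC (nX cB0 (nat_lit 13760) (cvN N))
      (nX cB0 (nat_lit 27520) (cvN N)) (nX cB0 (nat_lit 41280) (cvN N)))
def GB (N : ℕ) : ℕ :=
  Nat.add (fS (Nat.land (cvN N) cB0) (nX cB0 (nat_lit 13760) (cvN N))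
      (nX cB0 (nat_lit 27520) (cvN N)) (nX cB0 (nat_lit 41280) (cvN N)))
      (Nat.add (fB (nX cB0 (nat_lit 6880) (cvN N)) (nX cB0 (nat_lit 20640) (cvN N))
      (nX cB0 (nat_lit 34400) (cvN N))) cLb)
/-- one of three -/
def gs (v : Fin 3) (a c b : ℕ) : ℕ := (![a, c, b] : Fin 3 → ℕ) v
theorem gs0 (a c b : ℕ) : gs 0 a c b = a := rfl
theorem gs1 (a c b : ℕ) : gs 1 a c b = c := rfl
theorem gs2 (a c b : ℕ) : gs 2 a c b = b := rfl
def GN (N : ℕ) (v : Fin 3) : ℕ := gs v (GA N) (GC N) (GB N)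
theorem GN0 (N : ℕ) : GN N 0 = GA N := gs0 _ _ _
theorem GN1 (N : ℕ) : GN N 1 = GC N := gs1 _ _ _
theorem GN2 (N : ℕ) : GN N 2 = GB N := gs2 _ _ _

theorem fN_z (c : ℕ → ℤ) {q : ℕ} (h : 301 ≤ q) : fN c q = 0 := by
  unfold fN
  cases hv : vb q
  · rfl
  · have := ((vb_iff q).1 hv).1
    omega

theorem fN_b {c : ℕ → ℤ} (hc : ∀ i, |c i| < 2 ^ 76) (q : ℕ) : 0 ≤ fN c q ∧ fN c q ≤ 2 ^ 77 := by
  unfold fN
  have h := abs_lt.1 (hc q)
  cases vb q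
  · simp
  · rw [cond_true]
    constructor <;> linarith [h.1, h.2]

/-- the digits of `N + cOR` -/
theorem digX {N : ℕ} {c : ℕ → ℤ} (h : Rp N c) (hc : ∀ i, |c i| < 2 ^ 76) {q : ℕ} (hq : q ≠ 301) :
    (((N + cOR) / 2 ^ (160 * q) % 2 ^ 160 : ℕ) : ℤ) = fN c q := by
  have hd : ∀ i < 301, (fun i => (c i + (o76 i : ℤ)).toNat) i < 2 ^ 160 := by
    intro i _
    have h1 := abs_lt.1 (hc i)
    show (c i + (o76 i : ℤ)).toNat < 2 ^ 160
    cases hv : vb i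
    · rw [o76_f hv]
      omega
    · rw [o76_t hv]
      omega
  have ho : ∀ i < 301, c i + (o76 i : ℤ) = (((fun i => (c i + (o76 i : ℤ)).toNat) i : ℕ) : ℤ) := by
    intro i _
    have h1 := abs_lt.1 (hc i)
    show c i + (o76 i : ℤ) = ((c i + (o76 i : ℤ)).toNat : ℤ)
    cases hv : vb i
    · rw [o76_f hv, h.sp i hv]
      rfl
    · rw [o76_t hv, Int.toNat_of_nonneg (by omega)]
  obtain ⟨T, hT⟩ := Sm_of (n := 301) (N := N) (c := c) (o := o76) h.md hd ho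
  have e : Sm 301 o76 = cOR := cOR_eq.symm
  rw [e] at hT
  rcases lt_or_ge q 301 with hi | hi
  · rw [dig_of hT hd hi, ← ho q hi]
    unfold fN
    cases hv : vb q
    · rw [o76_f hv, h.sp q hv]
      rfl
    · rw [o76_t hv, cond_true]
      push_cast
      rfl
  · rw [fN_z c hi]
    have ho2 : ∀ i < 301, o76 i < 2 ^ 160 := by
      intro i _
      cases hv : vb i
      · rw [o76_f hv]
        norm_num
      · rw [o76_t hv]
        norm_num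
    have h1 := Sm_lt ho2
    rw [e] at h1
    have h2 := h.lt
    have h3 : 2 ^ (160 * 301) + 2 ^ (160 * 301) = 2 ^ (160 * 301 + 1) := by
      rw [pow_succ]
      ring
    have h4 : 2 ^ (160 * 301 + 1) ≤ 2 ^ (160 * q) :=
      Nat.pow_le_pow_right (by norm_num) (by omega)
    have h5 : N + cOR < 2 ^ (160 * q) := by omega
    rw [Nat.div_eq_of_lt h5]
    rfl

theorem shr0 (X : ℕ) : Nat.shiftRight X (160 * (0 * 0)) = X := rfl

/-- level 2 -/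
theorem parts2 {N : ℕ} {c : ℕ → ℤ} (h : Rp N c) (hc : ∀ i, |c i| < 2 ^ 76) :
    Parts b2 50 (fN c) (Nat.land (Nat.add N cOR) cB2) (nX cB2 (nat_lit 8000) (Nat.add N cOR))
      (nX cB2 (nat_lit 16000) (Nat.add N cOR)) (nX cB2 (nat_lit 24000) (Nat.add N cOR))
      (nX cB2 (nat_lit 32000) (Nat.add N cOR)) (nX cB2 (nat_lit 40000) (Nat.add N cOR))
      (nX cB2 (nat_lit 48000) (Nat.add N cOR)) := by
  have g : ∀ r, (∀ p, b2 p = true → p + r ≠ 301) →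
      RN (Nat.land (Nat.shiftRight (Nat.add N cOR) (160 * r)) cB2)
        (fun p => bif b2 p then fN c (p + r) else 0) := by
    intro r hr
    refine RN_mask cB2_eq r fun p hp => ?_
    exact digX h hc (hr p hp)
  refine ⟨?_, g (1 * 50) ?_, g (2 * 50) ?_, g (3 * 50) ?_, g (4 * 50) ?_, g (5 * 50) ?_,
    g (6 * 50) ?_⟩
  · exact g 0 fun _ hp => by have := (b2_iff _).1 hp; omega
  all_goals
    intro p hp
    have := (b2_iff p).1 hp
    omega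

/-- level 1 or 0 -/
theorem partsB {MB st : ℕ} {bs : ℕ → Bool}
    (hM : MB = Sm 301 (fun i => fo (2 ^ 160 - 1) (bs i))) {X : ℕ} {f : ℕ → ℤ} (h : RN X f)
    (hf : ∀ i, f i < 2 ^ 160) (hz : ∀ i, 301 ≤ i → f i = 0) (r : ℕ) :
    RN (Nat.land (Nat.shiftRight X (160 * (r * st))) MB)
      (fun p => bif bs p then f (p + r * st) else 0) :=
  RN_mask hM (r * st) fun p _ => h.dig hf hz _

theorem lev2 {N : ℕ} {c : ℕ → ℤ} (h : Rp N c) (hc : ∀ i, |c i| < 2 ^ 76) :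
    RN (lv22 (Nat.add N cOR)) (F2 (fN c)) ∧
      (∀ q, F2 (fN c) q ≤ 3 * (98 * 2 ^ 77 + 2 ^ 83)) ∧ ∀ q, 301 ≤ q → F2 (fN c) q = 0 := by
  have k : (k2 : ℤ) = 2 ^ 83 := by norm_num [k2]
  have h1 := (parts2 h hc).lv (k := k2) (e := 7) (M := 2 ^ 77) cL2_rn (fun i => (fN_b hc i).1)
    (fun i => (fN_b hc i).2) (by rw [k]; norm_num) (fun p hp => b2_f (by omega))
  rw [k] at h1
  have e : F2 (fN c) = pF b2 50 7 (2 ^ 83 : ℤ) (fN c) := by
    unfold F2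
    rw [k]
  rw [e]
  exact h1

theorem lev1 {N : ℕ} {c : ℕ → ℤ} (h : Rp N c) (hc : ∀ i, |c i| < 2 ^ 76) :
    RN (cvN N) (F1 (fN c)) ∧ (∀ q, F1 (fN c) q ≤ 3 * (98 * (3 * (98 * 2 ^ 77 + 2 ^ 83)) + 2 ^ 92)) ∧
      ∀ q, 301 ≤ q → F1 (fN c) q = 0 := by
  obtain ⟨h1, h2, h3⟩ := lev2 h hc
  have k : (k1 : ℤ) = 2 ^ 92 := by norm_num [k1]
  have hlt : ∀ i, F2 (fN c) i < 2 ^ 160 := fun i => (h2 i).trans_lt (by norm_num)
  have hp : Parts b1 44 (F2 (fN c)) (Nat.land (lv22 (Nat.add N cOR)) cB1)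
      (nX cB1 (nat_lit 7040) (lv22 (Nat.add N cOR)))
      (nX cB1 (nat_lit 14080) (lv22 (Nat.add N cOR)))
      (nX cB1 (nat_lit 21120) (lv22 (Nat.add N cOR)))
      (nX cB1 (nat_lit 28160) (lv22 (Nat.add N cOR)))
      (nX cB1 (nat_lit 35200) (lv22 (Nat.add N cOR)))
      (nX cB1 (nat_lit 42240) (lv22 (Nat.add N cOR))) := by
    refine ⟨?_, partsB (st := 44) cB1_eq h1 hlt h3 1, partsB (st := 44) cB1_eq h1 hlt h3 2,
      partsB (st := 44) cB1_eq h1 hlt h3 3, partsB (st := 44) cB1_eq h1 hlt h3 4,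
      partsB (st := 44) cB1_eq h1 hlt h3 5, partsB (st := 44) cB1_eq h1 hlt h3 6⟩
    have := partsB (st := 0) cB1_eq h1 hlt h3 0
    exact this
  have h4 := hp.lv (k := k1) (e := 1) (M := 3 * (98 * 2 ^ 77 + 2 ^ 83)) cL1_rn (fun i => h1.nn i)
    h2 (by rw [k]; norm_num) (fun p hp => b1_f fun hh => by
      have : p / 43 = 6 := by omega
      omega)
  rw [k] at h4
  have e : F1 (fN c) = pF b1 44 1 (2 ^ 92 : ℤ) (F2 (fN c)) := by
    unfold F1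
    rw [k]
  rw [e]
  exact h4

theorem parts0 {N : ℕ} {c : ℕ → ℤ} (h : Rp N c) (hc : ∀ i, |c i| < 2 ^ 76) :
    Parts b0 43 (F1 (fN c)) (Nat.land (cvN N) cB0) (nX cB0 (nat_lit 6880) (cvN N))
      (nX cB0 (nat_lit 13760) (cvN N)) (nX cB0 (nat_lit 20640) (cvN N))
      (nX cB0 (nat_lit 27520) (cvN N)) (nX cB0 (nat_lit 34400) (cvN N))
      (nX cB0 (nat_lit 41280) (cvN N)) := by
  obtain ⟨h1, h2, h3⟩ := lev1 h hc
  have hlt : ∀ i, F1 (fN c) i < 2 ^ 160 := fun i => (h2 i).trans_lt (by norm_num)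
  refine ⟨?_, partsB (st := 43) cB0_eq h1 hlt h3 1, partsB (st := 43) cB0_eq h1 hlt h3 2,
    partsB (st := 43) cB0_eq h1 hlt h3 3, partsB (st := 43) cB0_eq h1 hlt h3 4,
    partsB (st := 43) cB0_eq h1 hlt h3 5, partsB (st := 43) cB0_eq h1 hlt h3 6⟩
  have := partsB (st := 0) cB0_eq h1 hlt h3 0
  exact this

theorem b0_z {p : ℕ} (hp : 301 ≤ p) : b0 p = false := by
  cases e : b0 p
  · rfl
  · have := (b0_iff p).1 e
    omega

theorem k0_eq : (k0 : ℤ) = 2 ^ 101 + 2 ^ 19 := by norm_num [k0]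
theorem kb_eq : (kb : ℤ) = 2 ^ 19 := by norm_num [kb]
theorem k0_le : 53 * (3 * (98 * (3 * (98 * 2 ^ 77 + 2 ^ 83)) + 2 ^ 92)) ≤ (k0 : ℤ) := by
  rw [k0_eq]
  norm_num

theorem GA_rn {N : ℕ} {c : ℕ → ℤ} (h : Rp N c) (hc : ∀ i, |c i| < 2 ^ 76) :
    RN (GA N) (oF0 b0 43 k0 (F1 (fN c))) := by
  obtain ⟨h1, h2, h3⟩ := lev1 h hc
  unfold GA
  exact (parts0 h hc).A0 cL0_rn h1.nn h2 k0_le
theorem GC_rn {N : ℕ} {c : ℕ → ℤ} (h : Rp N c) (hc : ∀ i, |c i| < 2 ^ 76) :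
    RN (GC N) (oF1 b0 43 k0 (F1 (fN c))) := by
  obtain ⟨h1, h2, h3⟩ := lev1 h hc
  unfold GC
  exact (parts0 h hc).A1 cL0_rn h1.nn h2 k0_le
theorem GB_rn {N : ℕ} {c : ℕ → ℤ} (h : Rp N c) (hc : ∀ i, |c i| < 2 ^ 76) :
    RN (GB N) (oF2 b0 43 kb (F1 (fN c))) := by
  unfold GB
  exact (parts0 h hc).A2' cLb_rn

theorem F0_0 (f : ℕ → ℤ) : F0 f 0 = oF0 b0 43 k0 (F1 f) := rfl
theorem F0_1 (f : ℕ → ℤ) : F0 f 1 = oF1 b0 43 k0 (F1 f) := rfl
theorem F0_2 (f : ℕ → ℤ) : F0 f 2 = oF2 b0 43 kb (F1 f) := rfl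

theorem fin3 (v : Fin 3) : v = 0 ∨ v = 1 ∨ v = 2 := by
  fin_cases v <;> simp

theorem lev0 {N : ℕ} {c : ℕ → ℤ} (h : Rp N c) (hc : ∀ i, |c i| < 2 ^ 76) (v : Fin 3) :
    RN (GN N v) (F0 (fN c) v) ∧ (∀ q, F0 (fN c) v q < 2 ^ 160) ∧
      ∀ q, 301 ≤ q → F0 (fN c) v q = 0 := by
  obtain ⟨h1, h2, h3⟩ := lev1 h hc
  have hle := oF_le (bs := b0) (st := 43) (k := k0) h1.nn h2
  have hle' := oF_le (bs := b0) (st := 43) (k := kb) h1.nn h2
  rw [k0_eq] at hle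
  rw [kb_eq] at hle'
  rcases fin3 v with rfl | rfl | rfl
  · rw [GN0, F0_0]
    refine ⟨GA_rn h hc, fun q => ?_, fun q hq => (oF_z (b0_z hq) _).1⟩
    rw [k0_eq]
    exact (hle q).1.trans_lt (by norm_num)
  · rw [GN1, F0_1]
    refine ⟨GC_rn h hc, fun q => ?_, fun q hq => (oF_z (b0_z hq) _).2.1⟩
    rw [k0_eq]
    exact (hle q).2.1.trans_lt (by norm_num)
  · rw [GN2, F0_2]
    refine ⟨GB_rn h hc, fun q => ?_, fun q hq => (oF_z (b0_z hq) _).2.2⟩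
    rw [kb_eq]
    exact (hle' q).2.2.1.trans_lt (by norm_num)

end Pool.Agent.Helper55.CV
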