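import Pool.Agent.Helper55.TM.CV2

/-!
Taylor model machine (MP_c75db0, star frame): conversion to tensor quadratic functions, the leaves.
-/

set_option autoImplicit false
set_option exponentiation.threshold 100000
noncomputable section
namespace Pool.Agent.Helper55.CV

open Finset
open Pool.Agent.Helper86.C75 (Z)
open Pool.Agent.Helper86.CX (Cx)
open Pool.Agent.Helper86.CT (N3)
open Pool.Agent.Helper91.TM
open Pool.Agent.Helper90.KMO (zv zv_br cz)
open Pool.Agent.Helper90.KMT (nlf lf0)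
open Pool.Agent.Helper90.C75 (Vt)

/-! ### linear parts -/

/-- the linear functionals -/
def wl : Fin 3 → ℕ → (ℕ → ℤ) → ℕ → ℤ :=
  ![fun st f p => tA st f p - tB st f p, fun st f p => f p * 16 - tC st f p,
    fun st f p => tA st f p + tB st f p]

theorem wl_sub (v : Fin 3) (st : ℕ) (f g : ℕ → ℤ) (p : ℕ) :
    wl v st f p - wl v st g p = wl v st (fun i => f i - g i) p := by
  fin_cases v
  · show (tA st f p - tB st f p) - (tA st g p - tB st g p) =
      tA st (fun i => f i - g i) p - tB st (fun i => f i - g i) p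
    unfold tA tB
    ring
  · show (f p * 16 - tC st f p) - (g p * 16 - tC st g p) =
      (f p - g p) * 16 - tC st (fun i => f i - g i) p
    unfold tC
    ring
  · show (tA st f p + tB st f p) - (tA st g p + tB st g p) =
      tA st (fun i => f i - g i) p + tB st (fun i => f i - g i) p
    unfold tA tB
    ring

theorem wl_congr (v : Fin 3) {st st' : ℕ} {f g : ℕ → ℤ} {p q : ℕ}
    (h : ∀ e < 7, f (p + e * st) = g (q + e * st')) : wl v st f p = wl v st' g q := by
  have e0 := h 0 (by norm_num)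
  have e1 := h 1 (by norm_num)
  have e2 := h 2 (by norm_num)
  have e3 := h 3 (by norm_num)
  have e4 := h 4 (by norm_num)
  have e5 := h 5 (by norm_num)
  have e6 := h 6 (by norm_num)
  rw [zero_mul, zero_mul, add_zero, add_zero] at e0
  fin_cases v
  · show tA st f p - tB st f p = tA st' g q - tB st' g q
    unfold tA tB
    rw [e0, e1, e2, e3, e4, e5, e6]
  · show f p * 16 - tC st f p = g q * 16 - tC st' g q
    unfold tC
    rw [e0, e2, e4, e6]
  · show tA st f p + tB st f p = tA st' g q + tB st' g q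
    unfold tA tB
    rw [e0, e1, e2, e3, e4, e5, e6]

/-- the difference of two packed functions -/
theorem pF_at {bs : ℕ → Bool} {st e : ℕ} {k : ℤ} (f g : ℕ → ℤ)
    (hs : ∀ p, bs p = true → bs (p + e) = false ∧ bs (p + 2 * e) = false) {p : ℕ}
    (hp : bs p = true) (v : Fin 3) :
    pF bs st e k f (p + (v : ℕ) * e) - pF bs st e k g (p + (v : ℕ) * e) =
      wl v st (fun i => f i - g i) p := by
  have z1 : ∀ (κ : ℤ) (h : ℕ → ℤ) (n : ℕ), n ≤ p → bs (p - n) = true → (n = e ∨ n = 2 * e) →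
      0 < n → False := by
    intro _ _ n hn hb he h0
    have h1 := hs _ hb
    rcases he with rfl | rfl
    · rw [Nat.sub_add_cancel hn, hp] at h1
      exact absurd h1.1 (by decide)
    · rw [Nat.sub_add_cancel hn, hp] at h1
      exact absurd h1.2 (by decide)
  obtain ⟨s1, s2⟩ := hs p hp
  have he : 0 < e := by
    rcases Nat.eq_zero_or_pos e with h | h
    · subst h
      rw [add_zero, hp] at s1
      exact absurd s1 (by decide)
    · exact h
  rw [← wl_sub]
  have hcase : v = 0 ∨ v = 1 ∨ v = 2 := by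
    fin_cases v <;> simp
  rcases hcase with rfl | rfl | rfl
  · have e0 : p + ((0 : Fin 3) : ℕ) * e = p := by simp
    rw [e0]
    have c1 : ∀ h : ℕ → ℤ, (if e ≤ p then oF1 bs st k h (p - e) else 0) = 0 := by
      intro h
      split_ifs with h1
      · cases hb : bs (p - e)
        · exact (oF_z hb _).2.1
        · exact (z1 0 h e h1 hb (Or.inl rfl) he).elim
      · rfl
    have c2 : ∀ h : ℕ → ℤ, (if 2 * e ≤ p then oF2 bs st 0 h (p - 2 * e) else 0) = 0 := by
      intro h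
      split_ifs with h1
      · cases hb : bs (p - 2 * e)
        · exact (oF_z hb _).2.2
        · exact (z1 0 h (2 * e) h1 hb (Or.inr rfl) (by omega)).elim
      · rfl
    have c0 : ∀ h : ℕ → ℤ, pF bs st e k h p = wl 0 st h p + k := by
      intro h
      unfold pF
      rw [c1 h, c2 h]
      show (bif bs p then tA st h p + k - tB st h p else 0) + (0 + 0) =
        (tA st h p - tB st h p) + k
      rw [hp, cond_true]
      ring
    rw [c0, c0]
    ring
  · have e0 : p + ((1 : Fin 3) : ℕ) * e = p + e := by simp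
    rw [e0]
    have c2 : ∀ h : ℕ → ℤ,
        (if 2 * e ≤ p + e then oF2 bs st 0 h (p + e - 2 * e) else 0) = 0 := by
      intro h
      split_ifs with h1
      · have e3 : p + e - 2 * e = p - e := by omega
        rw [e3]
        cases hb : bs (p - e)
        · exact (oF_z hb _).2.2
        · exact (z1 0 h e (by omega) hb (Or.inl rfl) he).elim
      · rfl
    have c0 : ∀ h : ℕ → ℤ, pF bs st e k h (p + e) = wl 1 st h p + k := by
      intro h
      unfold pF
      rw [c2 h, if_pos (by omega), Nat.add_sub_cancel, (oF_z s1 _).1]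
      show 0 + ((bif bs p then h p * 16 + k - tC st h p else 0) + 0) =
        (h p * 16 - tC st h p) + k
      rw [hp, cond_true]
      ring
    rw [c0, c0]
    ring
  · have e0 : p + ((2 : Fin 3) : ℕ) * e = p + 2 * e := by simp
    rw [e0]
    have c0 : ∀ h : ℕ → ℤ, pF bs st e k h (p + 2 * e) = wl 2 st h p := by
      intro h
      unfold pF
      have e3 : p + 2 * e - e = p + e := by omega
      rw [if_pos (by omega), if_pos (by omega), Nat.add_sub_cancel, e3, (oF_z s2 _).1,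
        (oF_z s1 _).2.1]
      show 0 + (0 + (bif bs p then tA st h p + (tB st h p + 0) else 0)) =
        tA st h p + tB st h p
      rw [hp, cond_true]
      ring
    rw [c0, c0]

theorem b2_sep (p : ℕ) (h : b2 p = true) : b2 (p + 7) = false ∧ b2 (p + 2 * 7) = false := by
  obtain ⟨h1, h2⟩ := (b2_iff p).1 h
  have h3 : p / 43 ≤ 6 := by omega
  have h4 : p % 43 ≤ 6 := h2.trans h3
  have e1 : (p + 7) / 43 = p / 43 := by omega
  have e2 : (p + 7) % 43 = p % 43 + 7 := by omega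
  have e3 : (p + 2 * 7) / 43 = p / 43 := by omega
  have e4 : (p + 2 * 7) % 43 = p % 43 + 14 := by omega
  refine ⟨b2_f ?_, b2_f ?_⟩
  · rw [e1, e2]
    omega
  · rw [e3, e4]
    omega
theorem b1_sep (p : ℕ) (h : b1 p = true) : b1 (p + 1) = false ∧ b1 (p + 2 * 1) = false := by
  have h1 := (b1_iff p).1 h
  exact ⟨b1_f (by omega), b1_f (by omega)⟩

/-- THE LINEAR MAP; `v2, v1, v0`: control values in `s_2`, `s_1`, `s_0` -/
def TT (c : ℕ → ℤ) (v2 v1 v0 : Fin 3) : ℤ :=
  wl v0 43 (fun p => wl v1 44 (wl v2 50 c) p) 0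

/-- beyond the last digit -/
theorem wl_z (v : Fin 3) {st : ℕ} {c : ℕ → ℤ} (hz : ∀ i, 301 ≤ i → c i = 0) {p : ℕ}
    (hp : 301 ≤ p) : wl v st c p = 0 := by
  have h : ∀ n, c (p + n) = 0 := fun n => hz _ (by omega)
  have h0 : c p = 0 := hz p hp
  fin_cases v
  · show tA st c p - tB st c p = 0
    unfold tA tB
    rw [h, h, h, h, h, h, h0]
    ring
  · show c p * 16 - tC st c p = 0
    unfold tC
    rw [h, h, h, h0]
    ring
  · show tA st c p + tB st c p = 0
    unfold tA tB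
    rw [h, h, h, h, h, h, h0]
    ring

/-- level 2 -/
theorem F2_sub {f g : ℕ → ℤ} (hf : ∀ i, 301 ≤ i → f i = 0) (hg : ∀ i, 301 ≤ i → g i = 0)
    (hF : ∀ i, 301 ≤ i → F2 f i = 0) (hG : ∀ i, 301 ≤ i → F2 g i = 0)
    {D j : ℕ} (hj : j ≤ D) (hj6 : j ≤ 6) (v : Fin 3) :
    F2 f (43 * D + j + (v : ℕ) * 7) - F2 g (43 * D + j + (v : ℕ) * 7) =
      wl v 50 (fun i => f i - g i) (43 * D + j) := by
  rcases le_or_gt D 6 with hD | hD
  · exact pF_at f g b2_sep ((b2_iff _).2 (by omega)) v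
  · rw [hF _ (by omega), hG _ (by omega), wl_z v (fun i hi => by rw [hf i hi, hg i hi]; rfl)
      (by omega)]
    rfl

/-- level 1 -/
theorem F1_sub {f g : ℕ → ℤ} (hf : ∀ i, 301 ≤ i → f i = 0) (hg : ∀ i, 301 ≤ i → g i = 0)
    (hF : ∀ i, 301 ≤ i → F2 f i = 0) (hG : ∀ i, 301 ≤ i → F2 g i = 0)
    {i : ℕ} (hi : i ≤ 6) (v1 v2 : Fin 3) :
    F1 f (43 * i + (v2 : ℕ) * 7 + (v1 : ℕ) * 1) - F1 g (43 * i + (v2 : ℕ) * 7 + (v1 : ℕ) * 1) =
      wl v1 44 (wl v2 50 (fun i => f i - g i)) (43 * i) := by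
  have hv := v2.isLt
  have e0 : (43 * i + (v2 : ℕ) * 7) % 43 = (v2 : ℕ) * 7 := by omega
  have hb : b1 (43 * i + (v2 : ℕ) * 7) = true := by
    rw [b1_iff, e0]
    omega
  refine (pF_at (F2 f) (F2 g) b1_sep hb v1).trans ?_
  refine wl_congr v1 fun e he => ?_
  have e1 : 43 * i + (v2 : ℕ) * 7 + e * 44 = 43 * (i + e) + e + (v2 : ℕ) * 7 := by ring
  have e2 : 43 * i + e * 44 = 43 * (i + e) + e := by ring
  rw [e1, e2]
  exact F2_sub hf hg hF hG (by omega) (by omega) v2

/-- level 0 -/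
theorem F0_sub {f g : ℕ → ℤ} (hf : ∀ i, 301 ≤ i → f i = 0) (hg : ∀ i, 301 ≤ i → g i = 0)
    (hF : ∀ i, 301 ≤ i → F2 f i = 0) (hG : ∀ i, 301 ≤ i → F2 g i = 0) (v2 v1 v0 : Fin 3) :
    F0 f v0 ((v2 : ℕ) * 7 + (v1 : ℕ)) - F0 g v0 ((v2 : ℕ) * 7 + (v1 : ℕ)) =
      TT (fun i => f i - g i) v2 v1 v0 := by
  have hb : b0 ((v2 : ℕ) * 7 + (v1 : ℕ)) = true := by
    have h2 := v2.isLt
    have h1 := v1.isLt
    exact (b0_iff _).2 (by omega)
  have e : F0 f v0 ((v2 : ℕ) * 7 + (v1 : ℕ)) - F0 g v0 ((v2 : ℕ) * 7 + (v1 : ℕ)) =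
      wl v0 43 (fun i => F1 f i - F1 g i) ((v2 : ℕ) * 7 + (v1 : ℕ)) := by
    rw [← wl_sub]
    have hcase : v0 = 0 ∨ v0 = 1 ∨ v0 = 2 := by
      fin_cases v0 <;> simp
    rcases hcase with rfl | rfl | rfl
    · show (bif b0 _ then tA 43 (F1 f) _ + (k0 : ℤ) - tB 43 (F1 f) _ else 0) -
        (bif b0 _ then tA 43 (F1 g) _ + (k0 : ℤ) - tB 43 (F1 g) _ else 0) =
        (tA 43 (F1 f) _ - tB 43 (F1 f) _) - (tA 43 (F1 g) _ - tB 43 (F1 g) _)
      rw [hb, cond_true, cond_true]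
      ring
    · show (bif b0 _ then F1 f _ * 16 + (k0 : ℤ) - tC 43 (F1 f) _ else 0) -
        (bif b0 _ then F1 g _ * 16 + (k0 : ℤ) - tC 43 (F1 g) _ else 0) =
        (F1 f _ * 16 - tC 43 (F1 f) _) - (F1 g _ * 16 - tC 43 (F1 g) _)
      rw [hb, cond_true, cond_true]
      ring
    · show (bif b0 _ then tA 43 (F1 f) _ + (tB 43 (F1 f) _ + (kb : ℤ)) else 0) -
        (bif b0 _ then tA 43 (F1 g) _ + (tB 43 (F1 g) _ + (kb : ℤ)) else 0) =
        (tA 43 (F1 f) _ + tB 43 (F1 f) _) - (tA 43 (F1 g) _ + tB 43 (F1 g) _)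
      rw [hb, cond_true, cond_true]
      ring
  rw [e]
  unfold TT
  refine wl_congr v0 fun n hn => ?_
  have e1 : (v2 : ℕ) * 7 + (v1 : ℕ) + n * 43 = 43 * n + (v2 : ℕ) * 7 + (v1 : ℕ) * 1 := by ring
  have e2 : 0 + n * 43 = 43 * n := by ring
  rw [e1, e2]
  exact F1_sub hf hg hF hG (by omega) v1 v2

/-! ### the leaves -/

/-- the offsets -/
def OF : Fin 3 → Fin 3 → Fin 3 → Nat := ![
  ![![2524086438349751657168896, 2237147334283199581782016, 475354148035421435592704],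
    ![2506322223806769358962688, 2236815292889872809852928, 454970495833972381057024],
    ![2430413871943454554062848, 2410030219742005499527168, 60634447770283296161792]],
  ![![2519603879539840236126208, 2237258014747641839091712, 473269665955092256260096],
    ![2506432904271211616272384, 2237460928932452644159488, 453494756308075616927744],
    ![2428329389863125374730240, 2408554480216108735397888, 56520823841846066151424]],
  ![![2513793155156621727367168, 2242533783552722770853888, 467495835060021166604288],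
    ![2511708673076292548034560, 2241058044026826006724608, 463382211131583936593920],
    ![2422555558968054285074432, 2418441935039617055064064, 20973948011807760187392]]]

/-- the digits for the number `0` -/
theorem OF_ok : ∀ v2 v1 v0 : Fin 3, Nat.beq (Nat.land (Nat.shiftRight (GN 0 v0)
    (160 * ((v2 : ℕ) * 7 + (v1 : ℕ)))) (nat_lit 1461501637330902918203684832716283019655932542975))
    (OF v2 v1 v0 * 1048576 + 524288) = true := by
  decide +kernel

theorem Rp0 : Rp 0 (fun _ => 0) := by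
  refine ⟨by positivity, ?_, fun _ _ => rfl⟩
  have e : Sz 301 (fun _ => 0) = 0 := by
    unfold Sz
    simp
  rw [e]
  rfl

theorem OF_eq (v2 v1 v0 : Fin 3) : F0 (fN (fun _ => 0)) v0 ((v2 : ℕ) * 7 + (v1 : ℕ)) =
    (OF v2 v1 v0 : ℤ) * 2 ^ 20 + 2 ^ 19 := by
  obtain ⟨h1, h2, h3⟩ := lev0 Rp0 (fun _ => by norm_num) v0
  rw [← h1.dig h2 h3]
  have h := Nat.eq_of_beq_eq_true (OF_ok v2 v1 v0)
  have e1 : Nat.land (Nat.shiftRight (GN 0 v0) (160 * ((v2 : ℕ) * 7 + (v1 : ℕ))))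
      (nat_lit 1461501637330902918203684832716283019655932542975) =
      (GN 0 v0 / 2 ^ (160 * ((v2 : ℕ) * 7 + (v1 : ℕ)))) &&& (2 ^ 160 - 1) := by
    have e2 : Nat.shiftRight (GN 0 v0) (160 * ((v2 : ℕ) * 7 + (v1 : ℕ))) =
        GN 0 v0 / 2 ^ (160 * ((v2 : ℕ) * 7 + (v1 : ℕ))) := Nat.shiftRight_eq_div_pow _ _
    rw [e2, m160]
    rfl
  rw [e1, land_ones] at h
  rw [h]
  push_cast
  norm_num

/-- A LEAF -/
theorem leaf_ok {N : ℕ} {c : ℕ → ℤ} (h : Rp N c) (hc : ∀ i, |c i| < 2 ^ 76) (v2 v1 v0 : Fin 3) :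
    |zv (lfZ (GN N v0) (160 * ((v2 : ℕ) * 7 + (v1 : ℕ)) + 20) (OF v2 v1 v0)) * 2 ^ 20 -
      TT c v2 v1 v0| ≤ 2 ^ 19 := by
  obtain ⟨h1, h2, h3⟩ := lev0 h hc v0
  obtain ⟨-, -, g2⟩ := lev2 h hc
  obtain ⟨-, -, g3⟩ := lev2 Rp0 (fun _ => by norm_num)
  have h4 := F0_sub (f := fN c) (g := fN (fun _ => 0)) (fun i hi => fN_z c hi)
    (fun i hi => fN_z _ hi) g2 g3 v2 v1 v0
  have e1 : (fun i => fN c i - fN (fun _ => 0) i) = c := by
    funext i
    unfold fN
    cases hv : vb i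
    · rw [h.sp i hv]
      rfl
    · simp
  rw [e1, OF_eq] at h4
  have h5 := h1.dig h2 h3 ((v2 : ℕ) * 7 + (v1 : ℕ))
  set q := (v2 : ℕ) * 7 + (v1 : ℕ) with hq
  set g := GN N v0 with hg
  have e2 : Nat.land (Nat.shiftRight g (160 * q + 20)) (nat_lit 1393796574908163946345982392040522594123775) =
      (g / 2 ^ (160 * q) % 2 ^ 160) / 2 ^ 20 := by
    have e3 : Nat.shiftRight g (160 * q + 20) = g / 2 ^ (160 * q) / 2 ^ 20 := by
      have e4 : Nat.shiftRight g (160 * q + 20) = g / 2 ^ (160 * q + 20) :=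
        Nat.shiftRight_eq_div_pow _ _
      rw [e4, pow_add, Nat.div_div_eq_div_mul]
    have e4 : (nat_lit 1393796574908163946345982392040522594123775 : ℕ) = 2 ^ 140 - 1 := by norm_num
    rw [e3, e4]
    have e5 : Nat.land (g / 2 ^ (160 * q) / 2 ^ 20) (2 ^ 140 - 1) =
        g / 2 ^ (160 * q) / 2 ^ 20 % 2 ^ 140 := land_ones _ _
    rw [e5]
    exact (Nat.mod_mul_right_div_self (g / 2 ^ (160 * q)) (2 ^ 20) (2 ^ 140)).symm
  have e6 : zv (lfZ g (160 * q + 20) (OF v2 v1 v0)) =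
      ((g / 2 ^ (160 * q) % 2 ^ 160 / 2 ^ 20 : ℕ) : ℤ) - (OF v2 v1 v0 : ℤ) := by
    have e7 : zv (lfZ g (160 * q + 20) (OF v2 v1 v0)) =
        ((Nat.land (Nat.shiftRight g (160 * q + 20)) (nat_lit 1393796574908163946345982392040522594123775) : ℕ) : ℤ) -
          (OF v2 v1 v0 : ℤ) := zv_br _ _
    rw [e7, e2]
  rw [e6]
  set d := g / 2 ^ (160 * q) % 2 ^ 160 with hd
  have h6 : (d : ℤ) = TT c v2 v1 v0 + ((OF v2 v1 v0 : ℤ) * 2 ^ 20 + 2 ^ 19) := by
    rw [h5]
    linarith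
  have h7 := Nat.div_add_mod d (2 ^ 20)
  have h8 := Nat.mod_lt d (show 0 < 2 ^ 20 by norm_num)
  rw [abs_le]
  push_cast
  constructor <;> omega

/-- the tree -/
theorem tree_var (ar ai cr ci br bi : ℕ) (v2 v1 v0 : Fin 3) :
    nlf (nlf (nlf lf0)) (trN ar ai cr ci br bi) ((((), v0), v1), v2) =
      cz (lfC (gs v0 ar cr br) (gs v0 ai ci bi) (160 * ((v2 : ℕ) * 7 + (v1 : ℕ)) + 20)
        (OF v2 v1 v0)) := by
  fin_cases v2 <;> fin_cases v1 <;> fin_cases v0 <;> rfl

theorem cvT_eq (x : TP) : cvT x = trN (GA x.re) (GA x.im) (GC x.re) (GC x.im) (GB x.re)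
    (GB x.im) := by
  unfold cvT lv13 lv14 lv15 GA GC GB
  rfl

theorem tree_ok (x : TP) (v2 v1 v0 : Fin 3) :
    nlf (nlf (nlf lf0)) (cvT x) ((((), v0), v1), v2) =
      cz (lfC (GN x.re v0) (GN x.im v0) (160 * ((v2 : ℕ) * 7 + (v1 : ℕ)) + 20) (OF v2 v1 v0)) := by
  rw [cvT_eq]
  exact tree_var _ _ _ _ _ _ v2 v1 v0

end Pool.Agent.Helper55.CV
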