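import Pool.Agent.Helper55.TM.CV3

/-!
Taylor model machine (MP_c75db0, star frame): conversion to tensor quadratic functions, real
numbers.
-/

set_option autoImplicit false
set_option exponentiation.threshold 100000
noncomputable section
namespace Pool.Agent.Helper55.CV

open Finset
open Pool.Agent.Helper91.TM
open Pool.Agent.Helper90.C75 (bt)

/-! ### one variable -/

/-- the quadratic function in place of `s ^ e` -/
def qe : ℕ → ℝ → ℝ
  | 0, _ => 1
  | 1, s => s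
  | 2, s => s ^ 2
  | 3, s => 3 / 4 * s
  | 4, s => s ^ 2 - 1 / 8
  | 5, s => 11 / 16 * s
  | 6, s => s ^ 2 - 3 / 16
  | _, _ => 0

/-- the error -/
def ee : ℕ → ℝ
  | 3 => 1 / 4
  | 4 => 1 / 8
  | 5 => 3 / 8
  | 6 => 1 / 4
  | _ => 0

theorem qe_le {s : ℝ} (hs : |s| ≤ 1) (e : ℕ) : |qe e s| ≤ 1 := by
  have h := abs_le.1 hs
  have h2 : s ^ 2 ≤ 1 := by nlinarith
  have h3 := sq_nonneg s
  rcases e with _ | _ | _ | _ | _ | _ | _ | e
  · simp [qe]
  · exact hs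
  · show |s ^ 2| ≤ 1
    rw [abs_le]; constructor <;> linarith
  · show |3 / 4 * s| ≤ 1
    rw [abs_le]; constructor <;> linarith [h.1, h.2]
  · show |s ^ 2 - 1 / 8| ≤ 1
    rw [abs_le]; constructor <;> linarith
  · show |11 / 16 * s| ≤ 1
    rw [abs_le]; constructor <;> linarith [h.1, h.2]
  · show |s ^ 2 - 3 / 16| ≤ 1
    rw [abs_le]; constructor <;> linarith
  · simp [qe]

theorem p5 {x : ℝ} (h0 : 0 ≤ x) (h1 : x ≤ 1) : -(3 / 8) ≤ x ^ 5 - 11 / 16 * x ∧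
    x ^ 5 - 11 / 16 * x ≤ 3 / 8 := by
  constructor
  · have h2 : 0 ≤ (x - 3 / 5) ^ 2 * (x ^ 3 + 6 / 5 * x ^ 2 + 27 / 25 * x + 108 / 125) := by
      positivity
    nlinarith [h2]
  · have h2 : x ^ 5 ≤ x := by
      have := pow_le_pow_of_le_one h0 h1 (show 1 ≤ 5 by norm_num)
      rwa [pow_one] at this
    linarith

theorem qe_err {s : ℝ} (hs : |s| ≤ 1) {e : ℕ} (he : e ≤ 6) : |s ^ e - qe e s| ≤ ee e := by
  have h := abs_le.1 hs
  have h2 : s ^ 2 ≤ 1 := by nlinarith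
  have h3 := sq_nonneg s
  rcases e with _ | _ | _ | _ | _ | _ | _ | e
  · simp [qe, ee]
  · simp [qe, ee]
  · simp [qe, ee]
  · show |s ^ 3 - 3 / 4 * s| ≤ 1 / 4
    rw [abs_le]
    constructor
    · nlinarith [mul_nonneg (by linarith [h.1] : (0 : ℝ) ≤ s + 1) (sq_nonneg (2 * s - 1))]
    · nlinarith [mul_nonneg (by linarith [h.2] : (0 : ℝ) ≤ 1 - s) (sq_nonneg (2 * s + 1))]
  · show |s ^ 4 - (s ^ 2 - 1 / 8)| ≤ 1 / 8
    rw [abs_le]
    constructor
    · nlinarith [sq_nonneg (s ^ 2 - 1 / 2)]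
    · nlinarith [mul_nonneg h3 (by linarith : (0 : ℝ) ≤ 1 - s ^ 2)]
  · show |s ^ 5 - 11 / 16 * s| ≤ 3 / 8
    rcases le_total 0 s with h4 | h4
    · rw [abs_le]
      exact p5 h4 h.2
    · have h5 := p5 (x := -s) (by linarith) (by linarith [h.1])
      have e5 : (-s) ^ 5 = - s ^ 5 := by ring
      rw [e5] at h5
      rw [abs_le]
      constructor <;> linarith [h5.1, h5.2]
  · show |s ^ 6 - (s ^ 2 - 3 / 16)| ≤ 1 / 4
    have e6 : s ^ 6 = (s ^ 2) ^ 3 := by ring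
    rw [e6]
    set u := s ^ 2
    rw [abs_le]
    constructor
    · nlinarith [mul_nonneg (sq_nonneg (u - 3 / 5)) (by linarith : (0 : ℝ) ≤ u + 6 / 5)]
    · have : u ^ 3 ≤ u := by
        have := pow_le_pow_of_le_one h3 h2 (show 1 ≤ 3 by norm_num)
        rwa [pow_one] at this
      linarith
  · omega

/-- the weights -/
def wt (v : Fin 3) (e : ℕ) : ℤ :=
  ((![[16, -16, 16, -12, 14, -11, 13], [16, 0, -16, 0, -18, 0, -19],
    [16, 16, 16, 12, 14, 11, 13]] : Fin 3 → List ℤ) v).getD e 0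

theorem wl_eq (v : Fin 3) (st : ℕ) (f : ℕ → ℤ) (p : ℕ) :
    wl v st f p = ∑ e ∈ range 7, wt v e * f (p + e * st) := by
  have e0 : p + 0 * st = p := by ring
  fin_cases v
  · show tA st f p - tB st f p = _
    simp only [Finset.sum_range_succ, Finset.sum_range_zero, e0]
    show _ = 0 + 16 * f p + (-16) * f (p + 1 * st) + 16 * f (p + 2 * st) + (-12) * f (p + 3 * st) +
      14 * f (p + 4 * st) + (-11) * f (p + 5 * st) + 13 * f (p + 6 * st)
    unfold tA tB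
    ring
  · show f p * 16 - tC st f p = _
    simp only [Finset.sum_range_succ, Finset.sum_range_zero, e0]
    show _ = 0 + 16 * f p + 0 * f (p + 1 * st) + (-16) * f (p + 2 * st) + 0 * f (p + 3 * st) +
      (-18) * f (p + 4 * st) + 0 * f (p + 5 * st) + (-19) * f (p + 6 * st)
    unfold tC
    ring
  · show tA st f p + tB st f p = _
    simp only [Finset.sum_range_succ, Finset.sum_range_zero, e0]
    show _ = 0 + 16 * f p + 16 * f (p + 1 * st) + 16 * f (p + 2 * st) + 12 * f (p + 3 * st) +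
      14 * f (p + 4 * st) + 11 * f (p + 5 * st) + 13 * f (p + 6 * st)
    unfold tA tB
    ring

theorem bt_wt (t : ℝ) {e : ℕ} (he : e < 7) :
    ∑ v : Fin 3, bt t v * (wt v e : ℝ) = 16 * qe e (2 * t - 1) := by
  have b0 : bt t 0 = (1 - t) ^ 2 := rfl
  have b1 : bt t 1 = 2 * t * (1 - t) := rfl
  have b2 : bt t 2 = t ^ 2 := rfl
  rw [Fin.sum_univ_three, b0, b1, b2]
  rcases e with _ | _ | _ | _ | _ | _ | _ | e
  · show (1 - t) ^ 2 * ((16 : ℤ) : ℝ) + 2 * t * (1 - t) * ((16 : ℤ) : ℝ) + t ^ 2 * ((16 : ℤ) : ℝ) =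
      16 * 1
    push_cast; ring
  · show (1 - t) ^ 2 * ((-16 : ℤ) : ℝ) + 2 * t * (1 - t) * ((0 : ℤ) : ℝ) + t ^ 2 * ((16 : ℤ) : ℝ) =
      16 * (2 * t - 1)
    push_cast; ring
  · show (1 - t) ^ 2 * ((16 : ℤ) : ℝ) + 2 * t * (1 - t) * ((-16 : ℤ) : ℝ) +
      t ^ 2 * ((16 : ℤ) : ℝ) = 16 * (2 * t - 1) ^ 2
    push_cast; ring
  · show (1 - t) ^ 2 * ((-12 : ℤ) : ℝ) + 2 * t * (1 - t) * ((0 : ℤ) : ℝ) + t ^ 2 * ((12 : ℤ) : ℝ) =
      16 * (3 / 4 * (2 * t - 1))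
    push_cast; ring
  · show (1 - t) ^ 2 * ((14 : ℤ) : ℝ) + 2 * t * (1 - t) * ((-18 : ℤ) : ℝ) +
      t ^ 2 * ((14 : ℤ) : ℝ) = 16 * ((2 * t - 1) ^ 2 - 1 / 8)
    push_cast; ring
  · show (1 - t) ^ 2 * ((-11 : ℤ) : ℝ) + 2 * t * (1 - t) * ((0 : ℤ) : ℝ) + t ^ 2 * ((11 : ℤ) : ℝ) =
      16 * (11 / 16 * (2 * t - 1))
    push_cast; ring
  · show (1 - t) ^ 2 * ((13 : ℤ) : ℝ) + 2 * t * (1 - t) * ((-19 : ℤ) : ℝ) +
      t ^ 2 * ((13 : ℤ) : ℝ) = 16 * ((2 * t - 1) ^ 2 - 3 / 16)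
    push_cast; ring
  · omega

/-! ### three variables -/

/-- the interpolation of real control values -/
def R3 (t : ℕ → ℝ) (f : Fin 3 → Fin 3 → Fin 3 → ℝ) : ℝ :=
  ∑ v2, bt (t 2) v2 * ∑ v1, bt (t 1) v1 * ∑ v0, bt (t 0) v0 * f v2 v1 v0

theorem tri (B0 B1 B2 : Fin 3 → ℝ) (w : Fin 3 → ℕ → ℝ) (c : ℕ → ℕ → ℕ → ℝ) :
    ∑ v2, B2 v2 * ∑ v1, B1 v1 * ∑ v0, B0 v0 * (∑ i ∈ range 7, w v0 i *
      ∑ j ∈ range 7, w v1 j * ∑ k ∈ range 7, w v2 k * c i j k) =
    ∑ i ∈ range 7, ∑ j ∈ range 7, ∑ k ∈ range 7, c i j k *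
      ((∑ v, B0 v * w v i) * (∑ v, B1 v * w v j) * (∑ v, B2 v * w v k)) := by
  simp only [Fin.sum_univ_three, Finset.mul_sum, ← Finset.sum_add_distrib]
  refine Finset.sum_congr rfl fun i _ => Finset.sum_congr rfl fun j _ =>
    Finset.sum_congr rfl fun k _ => ?_
  ring

/-- the sum over the digits in use -/
theorem sum_vb (c : ℕ → ℝ) (hc : ∀ q, vb q = false → c q = 0) (G : ℕ → ℕ → ℕ → ℝ) :
    ∑ i ∈ range 7, ∑ j ∈ range 7, ∑ k ∈ range 7, c (43 * (i + j) + j + 50 * k) * G i j k =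
      ∑ q ∈ range 301, c q * G (x0 q) (x1 q) (x2 q) := by
  have hval : ∀ i j k : ℕ, j < 7 → k < 7 → i + j + k ≤ 6 →
      43 * (i + j) + j + 50 * k = 43 * (i + j + k) + (j + 7 * k) := by
    intro i j k _ _ _
    ring
  have e1 : ∑ i ∈ range 7, ∑ j ∈ range 7, ∑ k ∈ range 7, c (43 * (i + j) + j + 50 * k) * G i j k =
      ∑ p ∈ range 7 ×ˢ (range 7 ×ˢ range 7),
        c (43 * (p.1 + p.2.1) + p.2.1 + 50 * p.2.2) * G p.1 p.2.1 p.2.2 := by
    rw [Finset.sum_product]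
    refine Finset.sum_congr rfl fun i _ => ?_
    rw [Finset.sum_product]
  have e2 : ∑ p ∈ range 7 ×ˢ (range 7 ×ˢ range 7),
        c (43 * (p.1 + p.2.1) + p.2.1 + 50 * p.2.2) * G p.1 p.2.1 p.2.2 =
      ∑ p ∈ (range 7 ×ˢ (range 7 ×ˢ range 7)).filter (fun p => p.1 + p.2.1 + p.2.2 ≤ 6),
        c (43 * (p.1 + p.2.1) + p.2.1 + 50 * p.2.2) * G p.1 p.2.1 p.2.2 := by
    rw [Finset.sum_filter]
    refine Finset.sum_congr rfl fun p _ => ?_
    split_ifs with h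
    · rfl
    · rw [hc _ ?_, zero_mul]
      cases hv : vb (43 * (p.1 + p.2.1) + p.2.1 + 50 * p.2.2)
      · rfl
      · have := ((vb_iff _).1 hv).1
        omega
  have e3 : ∑ q ∈ range 301, c q * G (x0 q) (x1 q) (x2 q) =
      ∑ q ∈ (range 301).filter (fun q => vb q = true), c q * G (x0 q) (x1 q) (x2 q) := by
    rw [Finset.sum_filter]
    refine Finset.sum_congr rfl fun q _ => ?_
    split_ifs with h
    · rfl
    · rw [hc q (by simpa using h), zero_mul]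
  rw [e1, e2, e3]
  refine Finset.sum_nbij' (fun p => 43 * (p.1 + p.2.1) + p.2.1 + 50 * p.2.2)
    (fun q => (x0 q, (x1 q, x2 q))) ?_ ?_ ?_ ?_ ?_
  · intro p hp
    simp only [mem_filter, mem_product, mem_range] at hp
    obtain ⟨⟨h1, h2, h3⟩, h4⟩ := hp
    rw [mem_filter, mem_range]
    have e := hval p.1 p.2.1 p.2.2 h2 h3 h4
    refine ⟨by omega, ?_⟩
    rw [e]
    exact vb_of h2 (by omega) (by omega)
  · intro q hq
    rw [mem_filter, mem_range] at hq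
    obtain ⟨D, B, C, rfl, h1, h2, h3⟩ := vb_rep hq.2
    obtain ⟨k1, k2, k3⟩ := x_of (D := D) (B := B) (C := C) h1 (by omega)
    simp only [mem_filter, mem_product, mem_range]
    unfold x0
    rw [k1, k2, k3]
    omega
  · intro p hp
    simp only [mem_filter, mem_product, mem_range] at hp
    obtain ⟨⟨h1, h2, h3⟩, h4⟩ := hp
    have e := hval p.1 p.2.1 p.2.2 h2 h3 h4
    obtain ⟨k1, k2, k3⟩ := x_of (D := p.1 + p.2.1 + p.2.2) (B := p.2.1) (C := p.2.2) h2 (by omega)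
    simp only [e]
    unfold x0
    rw [k1, k2, k3]
    have e5 : p.1 + p.2.1 + p.2.2 - (p.2.1 + p.2.2) = p.1 := by omega
    rw [e5]
  · intro q hq
    rw [mem_filter, mem_range] at hq
    obtain ⟨D, B, C, rfl, h1, h2, h3⟩ := vb_rep hq.2
    obtain ⟨k1, k2, k3⟩ := x_of (D := D) (B := B) (C := C) h1 (by omega)
    simp only
    unfold x0
    rw [k1, k2, k3]
    omega
  · intro p hp
    simp only [mem_filter, mem_product, mem_range] at hp
    obtain ⟨⟨h1, h2, h3⟩, h4⟩ := hp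
    have e := hval p.1 p.2.1 p.2.2 h2 h3 h4
    obtain ⟨k1, k2, k3⟩ := x_of (D := p.1 + p.2.1 + p.2.2) (B := p.2.1) (C := p.2.2) h2 (by omega)
    simp only [e]
    unfold x0
    rw [k1, k2, k3]
    have e5 : p.1 + p.2.1 + p.2.2 - (p.2.1 + p.2.2) = p.1 := by omega
    rw [e5]

/-- the monomial after the conversion -/
def QQ (s : ℕ → ℝ) (q : ℕ) : ℝ := qe (x0 q) (s 0) * qe (x1 q) (s 1) * qe (x2 q) (s 2)

/-- THE INTERPOLATION OF THE EXACT CONTROL VALUES -/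
theorem R3_TT {c : ℕ → ℤ} (hc : Sp c) (t : ℕ → ℝ) :
    R3 t (fun v2 v1 v0 => (TT c v2 v1 v0 : ℝ)) =
      4096 * ∑ q ∈ range 301, (c q : ℝ) * QQ (tS t) q := by
  have e1 : ∀ v2 v1 v0 : Fin 3, (TT c v2 v1 v0 : ℝ) = ∑ i ∈ range 7, (wt v0 i : ℝ) *
      ∑ j ∈ range 7, (wt v1 j : ℝ) * ∑ k ∈ range 7, (wt v2 k : ℝ) *
        (c (43 * (i + j) + j + 50 * k) : ℝ) := by
    intro v2 v1 v0
    unfold TT
    rw [wl_eq]
    push_cast
    refine Finset.sum_congr rfl fun i _ => ?_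
    rw [wl_eq]
    push_cast
    congr 1
    refine Finset.sum_congr rfl fun j _ => ?_
    rw [wl_eq]
    push_cast
    congr 1
    refine Finset.sum_congr rfl fun k _ => ?_
    congr 3
    ring
  unfold R3
  simp only [e1]
  rw [tri]
  have e2 := sum_vb (fun q => (c q : ℝ)) (fun q hq => by rw [hc q hq]; simp)
    (fun a b d => qe a (tS t 0) * qe b (tS t 1) * qe d (tS t 2))
  have e3 : ∑ q ∈ range 301, (c q : ℝ) * QQ (tS t) q =
      ∑ q ∈ range 301, (c q : ℝ) * (qe (x0 q) (tS t 0) * qe (x1 q) (tS t 1) * qe (x2 q) (tS t 2)) :=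
    rfl
  have e4 : ∀ g : ℕ → ℕ → ℕ → ℝ, 4096 * (∑ i ∈ range 7, ∑ j ∈ range 7, ∑ k ∈ range 7, g i j k) =
      ∑ i ∈ range 7, ∑ j ∈ range 7, ∑ k ∈ range 7, 4096 * g i j k := by
    intro g
    simp only [Finset.mul_sum]
  rw [e3, ← e2, e4]
  apply Finset.sum_congr rfl
  intro i hi
  apply Finset.sum_congr rfl
  intro j hj
  apply Finset.sum_congr rfl
  intro k hk
  rw [bt_wt _ (mem_range.1 hi), bt_wt _ (mem_range.1 hj), bt_wt _ (mem_range.1 hk)]
  unfold tS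
  ring

/-! ### the error -/

theorem prod_err {a b c a' b' c' : ℝ} (hb : |b| ≤ 1) (hc : |c| ≤ 1) (ha' : |a'| ≤ 1)
    (hb' : |b'| ≤ 1) : |a * b * c - a' * b' * c'| ≤ |a - a'| + |b - b'| + |c - c'| := by
  have e : a * b * c - a' * b' * c' = (a - a') * (b * c) + (b - b') * (a' * c) +
      (c - c') * (a' * b') := by ring
  rw [e]
  refine (abs_add_le _ _).trans (add_le_add ((abs_add_le _ _).trans (add_le_add ?_ ?_)) ?_)
  · rw [abs_mul, abs_mul b c]
    exact mul_le_of_le_one_right (abs_nonneg _) (mul_le_one₀ hb (abs_nonneg _) hc)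
  · rw [abs_mul, abs_mul a' c]
    exact mul_le_of_le_one_right (abs_nonneg _) (mul_le_one₀ ha' (abs_nonneg _) hc)
  · rw [abs_mul, abs_mul a' b']
    exact mul_le_of_le_one_right (abs_nonneg _) (mul_le_one₀ ha' (abs_nonneg _) hb')

/-- an exponent at least `3` -/
def pm (q : Nat) : Bool := and (vb q) (not (and (Nat.ble (x0 q) 2) (and (Nat.ble (x1 q) 2)
  (Nat.ble (x2 q) 2))))
theorem pm_iff (q : ℕ) : pm q = true ↔ vb q = true ∧ ¬ (x0 q ≤ 2 ∧ x1 q ≤ 2 ∧ x2 q ≤ 2) := by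
  show (vb q && !(Nat.ble (x0 q) 2 && (Nat.ble (x1 q) 2 && Nat.ble (x2 q) 2))) = true ↔ _
  rw [Bool.and_eq_true, Bool.not_eq_true', ← Bool.not_eq_true, Bool.and_eq_true,
    Bool.and_eq_true, Nat.ble_eq, Nat.ble_eq, Nat.ble_eq]

theorem ee_nn (e : ℕ) : 0 ≤ ee e := by
  unfold ee
  split <;> norm_num

theorem ee_0 {e : ℕ} (h : e ≤ 2) : ee e = 0 := by
  rcases e with _ | _ | _ | e
  · rfl
  · rfl
  · rfl
  · omega

/-- the sum of the errors -/
theorem ee_sum {i j k : ℕ} (h : i + j + k ≤ 6) : ee i + ee j + ee k ≤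
    if i ≤ 2 ∧ j ≤ 2 ∧ k ≤ 2 then 0 else if i + j + k ≤ 4 then 1 / 4 else 1 / 2 := by
  have hi : i < 7 := by omega
  have hj : j < 7 := by omega
  have hk : k < 7 := by omega
  interval_cases i <;> interval_cases j <;> first | omega | (interval_cases k <;> first | omega |
    (norm_num [ee]))

/-- THE ERROR OF A MONOMIAL -/
theorem mu_err {s : ℕ → ℝ} (hs : SB s) {q : ℕ} (hq : vb q = true) :
    |mu s q - QQ s q| ≤ bif pm q then (if xd q ≤ 4 then 1 / 4 else 1 / 2) else 0 := by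
  obtain ⟨D, B, C, e, h1, h2, h3⟩ := vb_rep hq
  obtain ⟨k1, k2, k3⟩ := x_of (D := D) (B := B) (C := C) h1 (by omega)
  rw [← e] at k1 k2 k3
  have hsum : x0 q + x1 q + x2 q = xd q := by
    unfold x0
    rw [k1, k2, k3]
    omega
  have hd : xd q ≤ 6 := by rw [k1]; exact h3
  have s0 := hs 0 (by norm_num)
  have s1 := hs 1 (by norm_num)
  have s2 := hs 2 (by norm_num)
  have p1 : |s 1 ^ x1 q| ≤ 1 := by
    rw [abs_pow]
    exact pow_le_one₀ (abs_nonneg _) s1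
  have p2 : |s 2 ^ x2 q| ≤ 1 := by
    rw [abs_pow]
    exact pow_le_one₀ (abs_nonneg _) s2
  have h4 : |mu s q - QQ s q| ≤ ee (x0 q) + ee (x1 q) + ee (x2 q) := by
    unfold mu QQ
    refine (prod_err p1 p2 (qe_le s0 _) (qe_le s1 _)).trans ?_
    exact add_le_add (add_le_add (qe_err s0 (by omega)) (qe_err s1 (by omega)))
      (qe_err s2 (by omega))
  have h5 := ee_sum (i := x0 q) (j := x1 q) (k := x2 q) (by omega)
  refine (h4.trans h5).trans (le_of_eq ?_)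
  rw [hsum]
  by_cases hc : x0 q ≤ 2 ∧ x1 q ≤ 2 ∧ x2 q ≤ 2
  · have e1 : pm q = false := by
      cases e2 : pm q
      · rfl
      · exact absurd hc ((pm_iff q).1 e2).2
    rw [e1, if_pos hc]
    rfl
  · have e1 : pm q = true := (pm_iff q).2 ⟨hq, hc⟩
    rw [e1, if_neg hc]
    rfl

/-! ### the radius -/

theorem cPM_eq : cPM = Sm 301 (fun i => fo (2 ^ 160 - 1) (pm i)) := by
  rw [← m160]
  exact cst55 (by decide +kernel)

/-- the part with an exponent at least `3` -/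
def dM (c : ℕ → ℤ) (q : ℕ) : ℕ := bif pm q then (c q).natAbs else 0

theorem natAbs_lt {c : ℕ → ℤ} (hc : ∀ i, |c i| < 2 ^ 76) (i : ℕ) : (c i).natAbs < 2 ^ 76 := by
  have h2 := hc i
  have h4 : ((c i).natAbs : ℤ) = |c i| := Int.natCast_natAbs _
  omega

theorem dM_le {c : ℕ → ℤ} (hc : ∀ i, |c i| < 2 ^ 76) (i : ℕ) : dM c i ≤ 2 ^ 78 := by
  have h2 := natAbs_lt hc i
  unfold dM
  cases pm i
  · simp
  · rw [cond_true]
    omega

theorem land_PM {N : ℕ} {c : ℕ → ℤ} (h : Rp N c) (hc : ∀ i, |c i| < 2 ^ 76) :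
    Nat.land (absT N) cPM = Sm 301 (dM c) := by
  rw [absT_eq h.md h.sp hc, cPM_eq]
  have e := Sm_land (n := 301) (d := fun i => (c i).natAbs)
    (m := fun i => fo (2 ^ 160 - 1) (pm i)) (fun i _ => (natAbs_lt hc i).trans (by norm_num))
    (fun i _ => by
      show fo (2 ^ 160 - 1) (pm i) < 2 ^ 160
      cases pm i
      · rw [fo_f]; norm_num
      · rw [fo_t]; norm_num) 0
  rw [mul_zero, add_zero] at e
  refine e.trans (Sm_congr fun i _ => ?_)
  show (c i).natAbs &&& fo (2 ^ 160 - 1) (pm i) = dM c i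
  unfold dM
  cases pm i
  · rw [fo_f, Nat.and_zero]
    rfl
  · rw [fo_t, land_ones, cond_true]
    exact Nat.mod_eq_of_lt ((natAbs_lt hc i).trans (by norm_num))

theorem eR2_eq (X : ℕ) : eR2 X = ds X + ds (X / 2 ^ (160 * (43 * 5))) := by
  have e4 : Nat.shiftRight X (nat_lit 34400) = X / 2 ^ (160 * (43 * 5)) :=
    Nat.shiftRight_eq_div_pow _ _
  unfold eR2
  rw [e4]
  rfl

theorem eR_eq {N : ℕ} {c : ℕ → ℤ} (h : Rp N c) (hc : ∀ i, |c i| < 2 ^ 76) :
    eR N = ∑ q ∈ range 301, dM c q + ∑ r ∈ range 86, dM c (215 + r) := by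
  unfold eR
  rw [land_PM h hc, eR2_eq, blk' (k := 5) (by norm_num) (dM_le hc),
    ds_eq le_rfl fun i _ => dM_le hc i]

/-- THE ERROR OF THE CONVERSION, real part or imaginary part -/
theorem real_err {N : ℕ} {c : ℕ → ℤ} (h : Rp N c) (hc : ∀ i, |c i| < 2 ^ 76) {s : ℕ → ℝ}
    (hs : SB s) : |∑ q ∈ range 301, (c q : ℝ) * (mu s q - QQ s q)| ≤ (eR N : ℝ) / 4 := by
  have e : (eR N : ℝ) / 4 = ∑ q ∈ range 301, ((bif pm q then |(c q : ℝ)| else 0) / 4 +
      (if xd q ≤ 4 then 0 else (bif pm q then |(c q : ℝ)| else 0) / 4)) := by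
    rw [eR_eq h hc, Finset.sum_add_distrib, Nat.cast_add, add_div]
    have hcast : ∀ q, ((dM c q : ℕ) : ℝ) = bif pm q then |(c q : ℝ)| else 0 := by
      intro q
      unfold dM
      cases pm q
      · simp
      · rw [cond_true, cond_true, Nat.cast_natAbs]
        push_cast
        rfl
    congr 1
    · rw [Nat.cast_sum, Finset.sum_div]
      exact Finset.sum_congr rfl fun q _ => by rw [hcast]
    · have e1 : (301 : ℕ) = 215 + 86 := rfl
      rw [e1, Finset.sum_range_add]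
      have z : ∑ q ∈ range 215,
          (if xd q ≤ 4 then (0 : ℝ) else (bif pm q then |(c q : ℝ)| else 0) / 4) = 0 := by
        refine Finset.sum_eq_zero fun q hq => ?_
        rw [mem_range] at hq
        rw [if_pos]
        unfold xd
        omega
      rw [z, zero_add, Nat.cast_sum, Finset.sum_div]
      refine Finset.sum_congr rfl fun r _ => ?_
      rw [hcast, if_neg]
      unfold xd
      omega
  rw [e]
  refine (Finset.abs_sum_le_sum_abs _ _).trans (Finset.sum_le_sum fun q _ => ?_)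
  rw [abs_mul]
  cases hv : vb q
  · rw [h.sp q hv]
    have : 0 ≤ (bif pm q then |((0 : ℤ) : ℝ)| else 0) / 4 := by
      cases pm q <;> simp
    simp only [Int.cast_zero, abs_zero, zero_mul]
    cases pm q <;> simp
  · have h1 := mu_err hs hv
    have h2 := mul_le_mul_of_nonneg_left h1 (abs_nonneg (c q : ℝ))
    refine h2.trans (le_of_eq ?_)
    cases pm q
    · simp
    · simp only [cond_true]
      split_ifs <;> ring

end Pool.Agent.Helper55.CV
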