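import Pool.Agent.Helper91.TM.K
import Pool.Agent.Helper55.TM.CC

/-!
Taylor model machine (MP_c75db0, star frame): conversion of a polynomial of degree `≤ 6` in three
variables to a tensor quadratic function with `27` control values, kernel side. In every variable
`s ^ 3`, `s ^ 4`, `s ^ 5`, `s ^ 6` are replaced by `3/4 s`, `s ^ 2 - 1/8`, `11/16 s`,
`s ^ 2 - 3/16`; the control values (times `16`) of `x_0, .., x_6` are
`16 x_0 + 16 x_2 + 14 x_4 + 13 x_6` minus or plus `16 x_1 + 12 x_3 + 11 x_5` at the ends and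
`16 x_0` minus `16 x_2 + 18 x_4 + 19 x_6` in the middle.
-/

set_option autoImplicit false
noncomputable section
namespace Pool.Agent.Helper55.CV

open Pool.Agent.Helper86.C75 (Z)
open Pool.Agent.Helper86.CX (Cx nb2)
open Pool.Agent.Helper86.CT (N3)
open Pool.Agent.Helper91.TM (TP cOR absT ds)

/-- the part with a given exponent -/
def nX (M r X : Nat) : Nat := Nat.land (Nat.shiftRight X r) M
def fS (n0 n2 n4 n6 : Nat) : Nat :=
  Nat.add (Nat.mul (Nat.add n0 n2) (nat_lit 16))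
    (Nat.add (Nat.mul n4 (nat_lit 14)) (Nat.mul n6 (nat_lit 13)))
def fB (n1 n3 n5 : Nat) : Nat :=
  Nat.add (Nat.mul n1 (nat_lit 16))
    (Nat.add (Nat.mul n3 (nat_lit 12)) (Nat.mul n5 (nat_lit 11)))
def fC (n2 n4 n6 : Nat) : Nat :=
  Nat.add (Nat.mul n2 (nat_lit 16))
    (Nat.add (Nat.mul n4 (nat_lit 18)) (Nat.mul n6 (nat_lit 19)))

/-- the three control values `A`, `C`, `B` -/
def oA (K S B : Nat) : Nat := Nat.sub (Nat.add S K) B
def oC (K n0 C : Nat) : Nat := Nat.sub (Nat.add (Nat.mul n0 (nat_lit 16)) K) C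
/-- packed again -/
def pk (e f a c b : Nat) : Nat :=
  Nat.add a (Nat.add (Nat.shiftLeft c e) (Nat.shiftLeft b f))

def lv3 (e f K S B n0 C : Nat) : Nat := pk e f (oA K S B) (oC K n0 C) (Nat.add S B)
def lv2 (e f K n0 n1 n2 n3 n4 n5 n6 : Nat) : Nat :=
  lv3 e f K (fS n0 n2 n4 n6) (fB n1 n3 n5) n0 (fC n2 n4 n6)
/-- the variable `s_2` -/
def lv22 (X : Nat) : Nat :=
  lv2 (nat_lit 1120) (nat_lit 2240) cL2 (Nat.land X cB2) (nX cB2 (nat_lit 8000) X)
    (nX cB2 (nat_lit 16000) X) (nX cB2 (nat_lit 24000) X) (nX cB2 (nat_lit 32000) X)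
    (nX cB2 (nat_lit 40000) X) (nX cB2 (nat_lit 48000) X)
/-- the variable `s_1` -/
def lv21 (X : Nat) : Nat :=
  lv2 (nat_lit 160) (nat_lit 320) cL1 (Nat.land X cB1) (nX cB1 (nat_lit 7040) X)
    (nX cB1 (nat_lit 14080) X) (nX cB1 (nat_lit 21120) X) (nX cB1 (nat_lit 28160) X)
    (nX cB1 (nat_lit 35200) X) (nX cB1 (nat_lit 42240) X)

/-- a leaf -/
def lfZ (A q O : Nat) : Z :=
  Z.sub' (Nat.land (Nat.shiftRight A q) (nat_lit 1393796574908163946345982392040522594123775)) O
def lfC (x y q O : Nat) : Cx := ⟨lfZ x q O, lfZ y q O⟩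
def lf3 (ar ai cr ci br bi q oa oc ob : Nat) : N3 Cx :=
  N3.q (lfC ar ai q oa) (lfC cr ci q oc) (lfC br bi q ob)

/-- the tree; `a`, `c`, `b`: control values in the variable `s_0` -/
def trN (ar ai cr ci br bi : Nat) : N3 (N3 (N3 Cx)) :=
  N3.q
    (N3.q (lf3 ar ai cr ci br bi (nat_lit 20)
      (nat_lit 2524086438349751657168896) (nat_lit 2237147334283199581782016)
      (nat_lit 475354148035421435592704))
    (lf3 ar ai cr ci br bi (nat_lit 180)
      (nat_lit 2506322223806769358962688) (nat_lit 2236815292889872809852928)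
      (nat_lit 454970495833972381057024))
    (lf3 ar ai cr ci br bi (nat_lit 340)
      (nat_lit 2430413871943454554062848) (nat_lit 2410030219742005499527168)
      (nat_lit 60634447770283296161792)))
    (N3.q (lf3 ar ai cr ci br bi (nat_lit 1140)
      (nat_lit 2519603879539840236126208) (nat_lit 2237258014747641839091712)
      (nat_lit 473269665955092256260096))
    (lf3 ar ai cr ci br bi (nat_lit 1300)
      (nat_lit 2506432904271211616272384) (nat_lit 2237460928932452644159488)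
      (nat_lit 453494756308075616927744))
    (lf3 ar ai cr ci br bi (nat_lit 1460)
      (nat_lit 2428329389863125374730240) (nat_lit 2408554480216108735397888)
      (nat_lit 56520823841846066151424)))
    (N3.q (lf3 ar ai cr ci br bi (nat_lit 2260)
      (nat_lit 2513793155156621727367168) (nat_lit 2242533783552722770853888)
      (nat_lit 467495835060021166604288))
    (lf3 ar ai cr ci br bi (nat_lit 2420)
      (nat_lit 2511708673076292548034560) (nat_lit 2241058044026826006724608)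
      (nat_lit 463382211131583936593920))
    (lf3 ar ai cr ci br bi (nat_lit 2580)
      (nat_lit 2422555558968054285074432) (nat_lit 2418441935039617055064064)
      (nat_lit 20973948011807760187392)))

/-- the variable `s_0` -/
def lv15 (Sr Br nr Cr Si Bi ni Ci : Nat) : N3 (N3 (N3 Cx)) :=
  trN (oA cL0 Sr Br) (oA cL0 Si Bi) (oC cL0 nr Cr) (oC cL0 ni Ci)
    (Nat.add Sr (Nat.add Br cLb)) (Nat.add Si (Nat.add Bi cLb))
def lv14 (r0 r1 r2 r3 r4 r5 r6 i0 i1 i2 i3 i4 i5 i6 : Nat) : N3 (N3 (N3 Cx)) :=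
  lv15 (fS r0 r2 r4 r6) (fB r1 r3 r5) r0 (fC r2 r4 r6) (fS i0 i2 i4 i6) (fB i1 i3 i5) i0
    (fC i2 i4 i6)
def lv13 (X Y : Nat) : N3 (N3 (N3 Cx)) :=
  lv14 (Nat.land X cB0) (nX cB0 (nat_lit 6880) X)
    (nX cB0 (nat_lit 13760) X) (nX cB0 (nat_lit 20640) X) (nX cB0 (nat_lit 27520) X)
    (nX cB0 (nat_lit 34400) X) (nX cB0 (nat_lit 41280) X)
    (Nat.land Y cB0) (nX cB0 (nat_lit 6880) Y)
    (nX cB0 (nat_lit 13760) Y) (nX cB0 (nat_lit 20640) Y) (nX cB0 (nat_lit 27520) Y)
    (nX cB0 (nat_lit 34400) Y) (nX cB0 (nat_lit 41280) Y)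
def cvN (N : Nat) : Nat := lv21 (lv22 (Nat.add N cOR))
/-- THE CONVERSION -/
def cvT (x : TP) : N3 (N3 (N3 Cx)) := lv13 (cvN x.re) (cvN x.im)

/-- the digits with an exponent at least `3`; the digits of degree `5` and `6` count twice -/
def eR2 (X : Nat) : Nat := Nat.add (ds X) (ds (Nat.shiftRight X (nat_lit 34400)))
def eR (N : Nat) : Nat := eR2 (Nat.land (absT N) cPM)
/-- THE RADIUS -/
def cvR (x : TP) : Nat :=
  Nat.add (Nat.shiftRight (nb2 (eR x.re) (eR x.im)) (nat_lit 10)) (nat_lit 2)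

end Pool.Agent.Helper55.CV
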